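import Mathlib

/-! [EC-1] Gluing cycles in bi-Cayley graphs with homogeneous letters.  helper20 -/

namespace Pool.Agent.Helper20.EC

variable {G : Type*} [Group G]

/-- One step of the alternating walk: from side `false` multiply by `s i`, from side `true` by its
inverse; the side changes. -/
def stp (s : ℕ → G) (i : ℕ) (v : G × Bool) : G × Bool :=
  (v.1 * (bif v.2 then (s i)⁻¹ else s i), !v.2)

/-- The alternating walk with letters `l`. -/
def run (s : ℕ → G) : List ℕ → G × Bool → G × Bool
  | [], v => v
  | i :: l, v => run s l (stp s i v)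

/-- The side after `n` steps. -/
def sd : ℕ → Bool → Bool
  | 0, b => b
  | n + 1, b => sd n (!b)

@[simp] theorem run_nil (s : ℕ → G) (v : G × Bool) : run s [] v = v := rfl

@[simp] theorem run_cons (s : ℕ → G) (i : ℕ) (l : List ℕ) (v : G × Bool) :
    run s (i :: l) v = run s l (stp s i v) := rfl

@[simp] theorem stp_snd (s : ℕ → G) (i : ℕ) (v : G × Bool) : (stp s i v).2 = !v.2 := rfl

@[simp] theorem stp_stp (s : ℕ → G) (i : ℕ) (v : G × Bool) : stp s i (stp s i v) = v := by
  obtain ⟨g, b⟩ := v
  cases b <;> simp [stp]

theorem stp_inj (s : ℕ → G) (i : ℕ) {v w : G × Bool} (h : stp s i v = stp s i w) : v = w := by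
  have := congrArg (stp s i) h
  simpa using this

theorem run_append (s : ℕ → G) (l l' : List ℕ) (v : G × Bool) :
    run s (l ++ l') v = run s l' (run s l v) := by
  induction l generalizing v with
  | nil => rfl
  | cons a l ih => simp [ih]

theorem run_reverse (s : ℕ → G) (l : List ℕ) (v : G × Bool) :
    run s l.reverse (run s l v) = v := by
  induction l generalizing v with
  | nil => rfl
  | cons a l ih => simp [run_append, ih]

theorem run_reverse' (s : ℕ → G) (l : List ℕ) (v : G × Bool) :
    run s l (run s l.reverse v) = v := by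
  simpa using run_reverse s l.reverse v

theorem run_snd (s : ℕ → G) (l : List ℕ) (v : G × Bool) : (run s l v).2 = sd l.length v.2 := by
  induction l generalizing v with
  | nil => rfl
  | cons a l ih => simp [ih, sd]

theorem run_fst (s : ℕ → G) (l : List ℕ) (g : G) (b : Bool) :
    (run s l (g, b)).1 = g * (run s l (1, b)).1 := by
  induction l generalizing g b with
  | nil => simp
  | cons a l ih =>
    simp only [run_cons, stp]
    rw [ih, ih (1 * _), one_mul, mul_assoc]

/-- Letters are homogeneous: whether a word is closed only depends on the order type of its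
letters. -/
def Homog (s : ℕ → G) : Prop :=
  ∀ φ : ℕ → ℕ, StrictMono φ → ∀ (l : List ℕ) (b : Bool),
    (run s (l.map φ) (1, b)).1 = 1 ↔ (run s l (1, b)).1 = 1

/-- No nonempty reduced word of length less than `2 * m` is closed. -/
def Girth (s : ℕ → G) (m : ℕ) : Prop :=
  ∀ l : List ℕ, l ≠ [] → l.IsChain (· ≠ ·) → l.length < 2 * m → ∀ v, run s l v ≠ v

theorem isChain_reverse_ne {l : List ℕ} (h : l.IsChain (· ≠ ·)) : l.reverse.IsChain (· ≠ ·) := by
  rw [List.isChain_reverse]
  exact h.imp fun a b hab => hab.symm

theorem two_words {s : ℕ → G} {m : ℕ} (hm : Girth s m) (p : List ℕ) :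
    ∀ q : List ℕ, p.IsChain (· ≠ ·) → q.IsChain (· ≠ ·) → p ≠ q → ∀ v, run s p v = run s q v →
      2 * m ≤ p.length + q.length := by
  induction p using List.reverseRecOn with
  | nil =>
    intro q _ hq hne v h
    by_contra hcon
    exact hm q hne.symm hq (by simpa using hcon) v (by simpa using h.symm)
  | append_singleton p a ih =>
    intro q hp hq hne v h
    rcases List.eq_nil_or_concat q with rfl | ⟨q', b, rfl⟩
    · by_contra hcon
      exact hm _ hne hp (by simpa using hcon) v (by simpa using h)
    · rw [List.concat_eq_append] at *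
      by_cases hab : a = b
      · subst hab
        have h1 : run s p v = run s q' v := by
          rw [run_append, run_append] at h
          exact stp_inj s a h
        have h2 : p ≠ q' := fun e => hne (by rw [e])
        have := ih q' (List.isChain_append.1 hp).1 (List.isChain_append.1 hq).1 h2 v h1
        simp only [List.length_append, List.length_singleton]
        omega
      · by_contra hcon
        have hlen : (p ++ [a] ++ (q' ++ [b]).reverse).length < 2 * m := by
          simp only [List.length_append, List.length_reverse] at hcon ⊢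
          omega
        refine hm _ (by simp) ?_ hlen v ?_
        · rw [List.isChain_append]
          refine ⟨hp, isChain_reverse_ne hq, ?_⟩
          intro x hx y hy
          simp at hx hy
          subst hx hy
          exact hab
        · rw [run_append, h, run_reverse]

theorem homog_pair {s : ℕ → G} (hH : Homog s) {φ : ℕ → ℕ} (hφ : StrictMono φ) (p q : List ℕ)
    (v : G × Bool) (h : (run s p v).1 = (run s q v).1) (v' : G × Bool) (hv : v'.2 = v.2) :
    (run s (p.map φ) v').1 = (run s (q.map φ) v').1 := by
  have h1 : run s (p.reverse ++ q) (run s p v) = run s q v := by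
    rw [run_append, run_reverse]
  have h2 : (run s (p.reverse ++ q) (1, (run s p v).2)).1 = 1 := by
    have h3 := run_fst s (p.reverse ++ q) (run s p v).1 (run s p v).2
    rw [Prod.mk.eta, h1, ← h] at h3
    simpa using h3
  rw [← hH φ hφ] at h2
  have h4 : run s ((p.reverse ++ q).map φ) (run s (p.map φ) v') = run s (q.map φ) v' := by
    rw [List.map_append, run_append, List.map_reverse, run_reverse]
  have h5 := run_fst s ((p.reverse ++ q).map φ) (run s (p.map φ) v').1 (run s (p.map φ) v').2
  rw [Prod.mk.eta, h4] at h5
  have h6 : (run s (p.map φ) v').2 = (run s p v).2 := by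
    rw [run_snd, run_snd, hv, List.length_map]
  rw [h6, h2, mul_one] at h5
  exact h5.symm

/-- Key lemma: a short reduced word can only reach the end point of a word containing all of its
letters. -/
theorem letters_sub {s : ℕ → G} {m : ℕ} (hH : Homog s) (hm : Girth s m) (p q : List ℕ)
    (hp : p.IsChain (· ≠ ·)) (v : G × Bool) (h : (run s p v).1 = (run s q v).1) (a : ℕ)
    (ha : a ∈ p) (ha' : a ∉ q) : m ≤ p.length := by
  classical
  have hφ : StrictMono (fun n : ℕ => 2 * n) := fun a b hab => by
    show 2 * a < 2 * b
    omega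
  have hψ : StrictMono (fun n : ℕ => if n ∈ q then 2 * n else 2 * n + 1) := by
    intro a b hab
    show (if a ∈ q then 2 * a else 2 * a + 1) < (if b ∈ q then 2 * b else 2 * b + 1)
    split_ifs <;> omega
  have h1 := homog_pair hH hφ p q v h v rfl
  have h2 := homog_pair hH hψ p q v h v rfl
  have h3 : q.map (fun n : ℕ => if n ∈ q then 2 * n else 2 * n + 1) = q.map (fun n => 2 * n) := by
    apply List.map_congr_left
    intro n hn
    simp [hn]
  rw [h3, ← h1] at h2
  have h4 : run s (p.map fun n : ℕ => if n ∈ q then 2 * n else 2 * n + 1) v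
      = run s (p.map (fun n => 2 * n)) v := by
    apply Prod.ext h2
    rw [run_snd, run_snd, List.length_map, List.length_map]
  have h5 : (p.map fun n : ℕ => if n ∈ q then 2 * n else 2 * n + 1) ≠ p.map (fun n => 2 * n) := by
    intro e
    rw [List.map_inj_left] at e
    have := e a ha
    simp [ha'] at this
  have c1 : (p.map fun n : ℕ => if n ∈ q then 2 * n else 2 * n + 1).IsChain (· ≠ ·) := by
    rw [List.isChain_map]
    exact hp.imp fun a b hab e => hab (hψ.injective e)
  have c2 : (p.map (fun n => 2 * n)).IsChain (· ≠ ·) := by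
    rw [List.isChain_map]
    exact hp.imp fun a b hab e => hab (hφ.injective e)
  have := two_words hm _ _ c1 c2 h5 v h4
  simp only [List.length_map] at this
  omega


theorem odd_closed {s : ℕ → G} {m : ℕ} (hH : Homog s) (hm : Girth s m) (h2 : 2 ≤ m) (f : List ℕ)
    (hf : f.IsChain (· ≠ ·)) (u : G × Bool) (h : (run s f u).1 = u.1) (hne : f ≠ []) :
    m + 1 ≤ f.length := by
  rcases f with _ | ⟨a, _ | ⟨b, f⟩⟩
  · exact absurd rfl hne
  · exfalso
    have h1 := homog_pair hH (φ := fun n => n + 1) (fun a b hab => by simpa using hab) [a] [] u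
      (by simpa using h) u rfl
    have e0 : s a = 1 := by
      obtain ⟨g, b⟩ := u
      cases b <;> simpa [stp] using h
    have e1 : s (a + 1) = 1 := by
      obtain ⟨g, b⟩ := u
      cases b <;> simpa [stp] using h1
    apply hm [a, a + 1] (by simp) (by simp) (by simp; omega) u
    obtain ⟨g, b⟩ := u
    cases b <;> simp [stp, e0, e1]
  · have hab : b ≠ a := by
      simp at hf
      exact fun e => hf.1 e.symm
    have h1 : (run s (b :: f) (stp s a u)).1 = (run s [a] (stp s a u)).1 := by
      simpa using h
    have := letters_sub hH hm (b :: f) [a] (by simp at hf ⊢; exact hf.2) (stp s a u) h1 b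
      (by simp) (by simpa using hab)
    simp only [List.length_cons] at this ⊢
    omega

/-- A closed cyclically reduced word of minimal length is simple, even after forgetting sides. -/
theorem word_inj {s : ℕ → G} {m : ℕ} (hH : Homog s) (hm : Girth s m) (h2 : 2 ≤ m) (X : List ℕ)
    (hX : X.IsChain (· ≠ ·)) (hl : X.length = 2 * m)
    (hc : ∀ x ∈ X.getLast?, ∀ y ∈ X.head?, x ≠ y) (v : G × Bool) (hv : run s X v = v)
    (i j : ℕ) (hij : i < j) (hj : j < 2 * m) :
    (run s (X.take i) v).1 ≠ (run s (X.take j) v).1 := by
  intro h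
  set u := run s (X.take i) v with hu
  set w := run s (X.take j) v with hw
  have e1 : X.take j = X.take i ++ (X.take j).drop i := by
    conv_lhs => rw [← List.take_append_drop i (X.take j)]
    rw [List.take_take, min_eq_left hij.le]
  have h3 : run s ((X.take j).drop i) u = w := by
    rw [hw, e1, run_append, ← hu]
    congr 1
    rw [← e1]
  have h4 : run s (X.drop j ++ X.take i) w = u := by
    have h5 : run s (X.drop j) w = v := by
      rw [hw, ← run_append, List.take_append_drop, hv]
    rw [run_append, h5]
  have c1 : ((X.take j).drop i).IsChain (· ≠ ·) := (hX.take j).drop i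
  have c2 : (X.drop j ++ X.take i).IsChain (· ≠ ·) := by
    rw [List.isChain_append]
    refine ⟨hX.drop j, hX.take i, ?_⟩
    intro x hx y hy
    apply hc x _ y
    · rcases i with _ | i
      · simp at hy
      · simpa [List.head?_take] using hy
    · rw [List.getLast?_drop] at hx
      split_ifs at hx with hh
      · simp at hx
      · exact hx
  have l1 : ((X.take j).drop i).length = j - i := by
    simp only [List.length_drop, List.length_take]
    omega
  have l2 : (X.drop j ++ X.take i).length = 2 * m - j + i := by
    simp only [List.length_append, List.length_drop, List.length_take]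
    omega
  by_cases hs : u.2 = w.2
  · refine hm _ ?_ c1 (by rw [l1]; omega) u ?_
    · intro e
      rw [e] at l1
      simp at l1
      omega
    · rw [h3]
      exact (Prod.ext h hs).symm
  · have a1 := odd_closed hH hm h2 _ c1 u (by rw [h3]; exact h.symm) (by
      intro e
      rw [e] at l1
      simp at l1
      omega)
    have a2 := odd_closed hH hm h2 _ c2 w (by rw [h4]; exact h) (by
      intro e
      rw [e] at l2
      simp at l2
      omega)
    omega

/-- A minimal closed word in normal form: the smallest letter `0` comes first. -/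
structure Word (s : ℕ → G) (m : ℕ) (W : List ℕ) (β : Bool) (ζ : ℕ) : Prop where
  chain : W.IsChain (· ≠ ·)
  len : W.length = 2 * m
  head : ∃ Y, W = 0 :: Y
  last : ∃ W0, W = W0 ++ [ζ]
  ne : ζ ≠ 0
  closed : ∀ v : G × Bool, v.2 = β → run s W v = v

namespace Word

variable {s : ℕ → G} {m : ℕ} {W : List ℕ} {β : Bool} {ζ : ℕ}

theorem chain_map (hW : Word s m W β ζ) {φ : ℕ → ℕ} (hφ : StrictMono φ) :
    (W.map φ).IsChain (· ≠ ·) := by
  rw [List.isChain_map]
  exact hW.chain.imp fun a b hab e => hab (hφ.injective e)

theorem closed_map (hW : Word s m W β ζ) (hH : Homog s) {φ : ℕ → ℕ} (hφ : StrictMono φ)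
    (v : G × Bool) (hv : v.2 = β) : run s (W.map φ) v = v := by
  apply Prod.ext
  · exact homog_pair hH hφ W [] v (by rw [hW.closed v hv]; rfl) v rfl
  · rw [run_snd, List.length_map, ← run_snd s, hW.closed v hv]

theorem cyc_map (hW : Word s m W β ζ) {φ : ℕ → ℕ} (hφ : StrictMono φ) :
    ∀ x ∈ (W.map φ).getLast?, ∀ y ∈ (W.map φ).head?, x ≠ y := by
  obtain ⟨Y, hY⟩ := hW.head
  obtain ⟨W0, hW0⟩ := hW.last
  intro x hx y hy
  have h1 : (W.map φ).getLast? = some (φ ζ) := by rw [hW0]; simp
  have h2 : (W.map φ).head? = some (φ 0) := by rw [hY]; simp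
  rw [h1] at hx
  rw [h2] at hy
  simp at hx hy
  subst hx hy
  exact fun e => hW.ne (hφ.injective e)

/-- The vertices of the closed walk along the word `W.map φ`. -/
def pos (s : ℕ → G) (W : List ℕ) (φ : ℕ → ℕ) (v : G × Bool) (i : ℕ) : G × Bool :=
  run s ((W.map φ).take i) v

theorem pos_zero (φ : ℕ → ℕ) (v : G × Bool) : pos s W φ v 0 = v := by
  simp [pos]

theorem pos_len (hW : Word s m W β ζ) (hH : Homog s) {φ : ℕ → ℕ} (hφ : StrictMono φ)
    (v : G × Bool) (hv : v.2 = β) : pos s W φ v (2 * m) = v := by
  rw [pos, List.take_of_length_le (by rw [List.length_map, hW.len]), hW.closed_map hH hφ v hv]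

theorem pos_one (hW : Word s m W β ζ) (φ : ℕ → ℕ) (v : G × Bool) :
    pos s W φ v 1 = stp s (φ 0) v := by
  obtain ⟨Y, hY⟩ := hW.head
  simp [pos, hY]

theorem pos_succ (hW : Word s m W β ζ) (φ : ℕ → ℕ) (v : G × Bool) (i : ℕ) (hi : i < 2 * m) :
    ∃ a, stp s a (pos s W φ v i) = pos s W φ v (i + 1) := by
  have h1 : i < (W.map φ).length := by rw [List.length_map, hW.len]; exact hi
  refine ⟨(W.map φ)[i], ?_⟩
  rw [pos, pos, List.take_add_one, List.getElem?_eq_getElem h1, run_append]
  rfl

theorem pos_rev (hW : Word s m W β ζ) (hH : Homog s) {φ : ℕ → ℕ} (hφ : StrictMono φ)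
    (v : G × Bool) (hv : v.2 = β) (i : ℕ) :
    pos s W φ v i = run s ((W.map φ).drop i).reverse v := by
  have h1 : run s ((W.map φ).drop i) (pos s W φ v i) = v := by
    rw [pos, ← run_append, List.take_append_drop, hW.closed_map hH hφ v hv]
  conv_rhs => rw [← h1]
  rw [run_reverse]

theorem pos_last (hW : Word s m W β ζ) (hH : Homog s) (h2 : 2 ≤ m) {φ : ℕ → ℕ} (hφ : StrictMono φ)
    (v : G × Bool) (hv : v.2 = β) : pos s W φ v (2 * m - 1) = stp s (φ ζ) v := by
  obtain ⟨W0, hW0⟩ := hW.last
  have hl : W0.length = 2 * m - 1 := by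
    have := hW.len
    rw [hW0] at this
    simp at this
    omega
  rw [hW.pos_rev hH hφ v hv, hW0, List.map_append, List.drop_append, List.length_map, hl]
  rw [List.drop_of_length_le (by rw [List.length_map, hl])]
  simp

theorem pos_inj (hW : Word s m W β ζ) (hH : Homog s) (hm : Girth s m) (h2 : 2 ≤ m)
    {φ : ℕ → ℕ} (hφ : StrictMono φ) (v : G × Bool) (hv : v.2 = β) (i j : ℕ) (hi : i < 2 * m)
    (hj : j < 2 * m) (h : (pos s W φ v i).1 = (pos s W φ v j).1) : i = j := by
  rcases lt_trichotomy i j with hij | hij | hij
  · exact absurd h (word_inj hH hm h2 _ (hW.chain_map hφ) (by rw [List.length_map, hW.len])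
      (hW.cyc_map hφ) v (hW.closed_map hH hφ v hv) i j hij hj)
  · exact hij
  · exact absurd h.symm (word_inj hH hm h2 _ (hW.chain_map hφ) (by rw [List.length_map, hW.len])
      (hW.cyc_map hφ) v (hW.closed_map hH hφ v hv) j i hij hi)

/-- Two copies of the closed walk with the same first letter and disjoint other letters. -/
theorem pos_ne (hW : Word s m W β ζ) (hH : Homog s) (hm : Girth s m)
    {φ ψ : ℕ → ℕ} (hφ : StrictMono φ) (hψ : StrictMono ψ) (h0 : φ 0 = ψ 0)
    (hdis : ∀ a, a ≠ 0 → ∀ b, φ a ≠ ψ b) (v : G × Bool) (hv : v.2 = β) (i : ℕ) (hi : 2 ≤ i)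
    (hi' : i < 2 * m) : (pos s W φ v i).1 ≠ (pos s W ψ v i).1 := by
  intro h
  by_cases him : i ≤ m
  · obtain ⟨Y, hY⟩ := hW.head
    obtain ⟨i, rfl⟩ : ∃ k, i = k + 1 := ⟨i - 1, by omega⟩
    have hc := hW.chain_map hφ
    have hlen := hW.len
    rw [pos, pos] at h
    rw [hY] at h hc hlen
    rw [List.map_cons, List.map_cons, List.take_succ_cons, List.take_succ_cons, run_cons, run_cons,
      ← h0] at h
    rw [List.map_cons] at hc
    rcases Y with _ | ⟨y, Y⟩
    · simp at hlen
      omega
    have hy : y ≠ 0 := by
      have := hW.chain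
      rw [hY] at this
      simp at this
      exact fun e => this.1 e.symm
    obtain ⟨i, rfl⟩ : ∃ k, i = k + 1 := ⟨i - 1, by omega⟩
    have := letters_sub hH hm (((y :: Y).map φ).take (i + 1)) (((y :: Y).map ψ).take (i + 1))
      ((List.isChain_of_isChain_cons hc).take _) (stp s (φ 0) v) h (φ y) (by simp) (by
        intro hmem
        have := List.mem_of_mem_take hmem
        rw [List.mem_map] at this
        obtain ⟨b, _, hb⟩ := this
        exact hdis y hy b hb.symm)
    simp only [List.length_take] at this
    omega
  · obtain ⟨W0, hW0⟩ := hW.last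
    rw [hW.pos_rev hH hφ v hv, hW.pos_rev hH hψ v hv] at h
    have hl : (W.map φ).length = 2 * m := by rw [List.length_map, hW.len]
    have := letters_sub hH hm _ _ (isChain_reverse_ne ((hW.chain_map hφ).drop i)) v h (φ ζ) (by
        rw [List.mem_reverse]
        have e1 : W.map φ = W0.map φ ++ [φ ζ] := by rw [hW0]; simp
        have e2 : W0.length + 1 = 2 * m := by
          have := hW.len
          rw [hW0] at this
          simpa using this
        rw [e1, List.drop_append_of_le_length (by rw [List.length_map]; omega)]
        simp) (by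
        intro hmem
        rw [List.mem_reverse] at hmem
        have := List.mem_of_mem_drop hmem
        rw [List.mem_map] at this
        obtain ⟨b, _, hb⟩ := this
        exact hdis ζ hW.ne b hb.symm)
    rw [List.length_reverse, List.length_drop, hl] at this
    omega

/-- Two copies of the closed walk which share only the last letter. -/
theorem pos_cross (hW : Word s m W β ζ) (hH : Homog s) (hm : Girth s m) (h2 : 2 ≤ m)
    {φ ψ : ℕ → ℕ} (hφ : StrictMono φ) (hψ : StrictMono ψ) (hζ : φ ζ = ψ ζ)
    (hdis : ∀ a b, φ a = ψ b → a = ζ ∧ b = ζ) (v : G × Bool) (hv : v.2 = β) (i j : ℕ)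
    (hi : 1 ≤ i) (hi' : i ≤ 2 * m - 1) (hj : 1 ≤ j) (hj' : j ≤ 2 * m - 2) :
    (pos s W φ v i).1 ≠ (pos s W ψ v j).1 := by
  intro h
  have hlφ : (W.map φ).length = 2 * m := by rw [List.length_map, hW.len]
  have hlψ : (W.map ψ).length = 2 * m := by rw [List.length_map, hW.len]
  by_cases him : i < m
  · have := letters_sub hH hm ((W.map φ).take i) ((W.map ψ).take j) ((hW.chain_map hφ).take i) v h
      (φ 0) (by
        obtain ⟨Y, hY⟩ := hW.head
        obtain ⟨i, rfl⟩ : ∃ k, i = k + 1 := ⟨i - 1, by omega⟩
        rw [hY]
        simp) (by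
        intro hmem
        have := List.mem_of_mem_take hmem
        rw [List.mem_map] at this
        obtain ⟨b, _, hb⟩ := this
        exact hW.ne (hdis 0 b hb.symm).1.symm)
    rw [List.length_take] at this
    omega
  by_cases hjm : j < m
  · have := letters_sub hH hm ((W.map ψ).take j) ((W.map φ).take i) ((hW.chain_map hψ).take j) v
      h.symm (ψ 0) (by
        obtain ⟨Y, hY⟩ := hW.head
        obtain ⟨j, rfl⟩ : ∃ k, j = k + 1 := ⟨j - 1, by omega⟩
        rw [hY]
        simp) (by
        intro hmem
        have := List.mem_of_mem_take hmem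
        rw [List.mem_map] at this
        obtain ⟨b, _, hb⟩ := this
        exact hW.ne (hdis b 0 hb).2.symm)
    rw [List.length_take] at this
    omega
  · obtain ⟨W0, hW0⟩ := hW.last
    have e2 : W0.length + 1 = 2 * m := by
      have := hW.len
      rw [hW0] at this
      simpa using this
    have e3 : W.map φ = W0.map φ ++ [φ ζ] := by rw [hW0]; simp
    have e4 : W.map ψ = W0.map ψ ++ [ψ ζ] := by rw [hW0]; simp
    have hch := hW.chain_map hψ
    rw [hW.pos_rev hH hφ v hv, hW.pos_rev hH hψ v hv, e3, e4,
      List.drop_append_of_le_length (by rw [List.length_map]; omega),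
      List.drop_append_of_le_length (by rw [List.length_map]; omega), List.reverse_append,
      List.reverse_append, List.reverse_singleton, List.reverse_singleton, List.singleton_append,
      List.singleton_append, run_cons, run_cons, hζ] at h
    rw [e4] at hch
    rcases List.eq_nil_or_concat W0 with rfl | ⟨W1, c, hc⟩
    · simp at e2
      omega
    · rw [List.concat_eq_append] at hc
      subst hc
      have hcζ : c ≠ ζ := by
        have := hW.chain
        rw [hW0] at this
        simp [List.isChain_append] at this
        tauto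
      have := letters_sub hH hm _ _
        (isChain_reverse_ne (((List.isChain_append.1 hch).1).drop j)) _ h.symm (ψ c) (by
          rw [List.mem_reverse, List.map_append, List.drop_append_of_le_length (by
            simp only [List.length_append, List.length_singleton] at e2
            rw [List.length_map]; omega)]
          simp) (by
          intro hmem
          rw [List.mem_reverse] at hmem
          have := List.mem_of_mem_drop hmem
          rw [List.mem_map] at this
          obtain ⟨b, _, hb⟩ := this
          exact hcζ (hdis b c hb).2)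
      rw [List.length_reverse, List.length_drop, List.length_map] at this
      omega

end Word

end Pool.Agent.Helper20.EC
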