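import Pool.Agent.helper20.EC.Graph

/-! [EC-8] All groups: either a long even cycle or a large subset of large girth.  helper20 -/

namespace Pool.Agent.Helper20.EC

open SimpleGraph Filter

/-- The bi-Cayley graph of `G` with respect to `T`: two copies of `G`, and `(g, false)` is adjacent
to `(g * t, true)` for `t ∈ T`. -/
def biCay {G : Type*} [Group G] (T : Finset G) : SimpleGraph (G × Bool) where
  Adj u v := (u.2 = false ∧ v.2 = true ∧ u.1⁻¹ * v.1 ∈ T) ∨
    (v.2 = false ∧ u.2 = true ∧ v.1⁻¹ * u.1 ∈ T)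
  symm := ⟨fun _ _ h => h.symm⟩
  loopless := ⟨fun u h => by
    rcases h with h | h
    · rw [h.1] at h
      simp at h
    · rw [h.1] at h
      simp at h⟩

theorem biCay_adj_stp {G : Type*} [Group G] {T : Finset G} {s : ℕ → G} {a : ℕ} (ha : s a ∈ T)
    (u : G × Bool) : (biCay T).Adj u (stp s a u) := by
  obtain ⟨g, b⟩ := u
  cases b
  · left
    simp [stp, ha]
  · right
    simp [stp, ha]

theorem exists_stp {G : Type*} [Group G] {T : Finset G} {u v : G × Bool}
    (h : (biCay T).Adj u v) : ∃ t ∈ T, (v.1 = u.1 * (bif u.2 then t⁻¹ else t)) ∧ v.2 = !u.2 := by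
  obtain ⟨g, b⟩ := u
  obtain ⟨g', b'⟩ := v
  rcases h with ⟨h1, h2, h3⟩ | ⟨h1, h2, h3⟩
  · simp only at h1 h2 h3
    subst h1 h2
    exact ⟨_, h3, by simp⟩
  · simp only at h1 h2 h3
    subst h1 h2
    exact ⟨_, h3, by simp⟩

/-- A cycle in the bi-Cayley graph gives a closed reduced word. -/
theorem word_of_cycle {G : Type*} [Group G] {T : Finset G} {s : ℕ → G} {M : ℕ}
    (hT : ∀ t ∈ T, ∃ a < M, s a = t) {n : ℕ} (hn : 3 ≤ n)
    (h : (cycleGraph n).IsContained (biCay T)) : ∃ l : List ℕ, l ≠ [] ∧ l.IsChain (· ≠ ·) ∧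
    l.length = n ∧ (∀ a ∈ l, a < M) ∧ ∃ v, run s l v = v := by
  obtain ⟨f⟩ := h
  have hn0 : 0 < n := by omega
  set c : ℕ → G × Bool := fun i => f ⟨i % n, Nat.mod_lt _ hn0⟩ with hc
  have hadj : ∀ i, (biCay T).Adj (c i) (c (i + 1)) := by
    intro i
    apply f.toHom.map_adj
    rw [cycleGraph_adj']
    right
    rw [Fin.sub_def]
    simp only
    have h1 : i % n < n := Nat.mod_lt _ hn0
    rw [Nat.add_mod i 1 n, Nat.mod_eq_of_lt (show 1 < n by omega)]
    by_cases h2 : i % n + 1 < n
    · rw [Nat.mod_eq_of_lt h2, show n - i % n + (i % n + 1) = 1 + n by omega, Nat.add_mod_right,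
        Nat.mod_eq_of_lt (by omega)]
    · rw [show i % n + 1 = n by omega, Nat.mod_self, show n - i % n + 0 = 1 by omega,
        Nat.mod_eq_of_lt (by omega)]
  have hinj : ∀ i j, c i = c j → i % n = j % n := by
    intro i j e
    have := f.injective e
    simpa using this
  have hex : ∀ i, ∃ a < M, stp s a (c i) = c (i + 1) := by
    intro i
    obtain ⟨t, ht, h1, h2⟩ := exists_stp (hadj i)
    obtain ⟨a, ha, rfl⟩ := hT t ht
    exact ⟨a, ha, Prod.ext h1.symm h2.symm⟩
  choose a ha1 ha2 using hex
  have hrun : ∀ j, run s ((List.range j).map a) (c 0) = c j := by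
    intro j
    induction j with
    | zero => simp
    | succ j ih => rw [List.range_succ, List.map_append, run_append, ih]; exact ha2 j
  refine ⟨(List.range n).map a, ?_, ?_, by simp, ?_, c 0, ?_⟩
  · intro e
    have := congrArg List.length e
    simp at this
    omega
  · rw [List.isChain_map]
    obtain ⟨n', rfl⟩ : ∃ k, n = k + 1 := ⟨n - 1, by omega⟩
    rw [List.isChain_range]
    intro j hj e
    have h1 : c (j + 1 + 1) = c j := by
      rw [← ha2 (j + 1), ← ha2 j, e, stp_stp]
    have h2 := hinj _ _ h1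
    have h3 : (j + 2) % (n' + 1) = j % (n' + 1) := h2
    have h4 : 2 % (n' + 1) = 0 := by
      have : j + 2 ≡ j + 0 [MOD n' + 1] := h3
      exact Nat.ModEq.add_left_cancel' j this
    rw [Nat.mod_eq_of_lt (by omega)] at h4
    omega
  · intro x hx
    rw [List.mem_map] at hx
    obtain ⟨j, _, rfl⟩ := hx
    exact ha1 j
  · rw [hrun]
    simp [hc]

/-- Lists with small entries and bounded length form a finite set. -/
theorem finite_lists (M L : ℕ) : {l : List ℕ | (∀ a ∈ l, a < M) ∧ l.length ≤ L}.Finite := by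
  have h1 : {l : List (Fin M) | l.length ≤ L}.Finite := List.finite_length_le (Fin M) L
  refine (h1.image (fun l => l.map Fin.val)).subset ?_
  rintro l ⟨h2, h3⟩
  refine ⟨l.pmap (fun a (h : a < M) => (⟨a, h⟩ : Fin M)) h2, by simpa using h3, ?_⟩
  simp [List.map_pmap]

/-- The Cayley graph of `G` with respect to `T` and the inverses of its elements. -/
def Cay {G : Type*} [Group G] (T : Finset G) : SimpleGraph G where
  Adj g h := g ≠ h ∧ (g⁻¹ * h ∈ T ∨ h⁻¹ * g ∈ T)
  symm := ⟨fun _ _ h => ⟨h.1.symm, h.2.symm⟩⟩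
  loopless := ⟨fun _ h => h.1 rfl⟩

theorem dichotomy.{u} (L M k : ℕ) (hk : 2 * L ^ 2 ≤ k) :
    ∃ D : ℕ, ∀ (G : Type u) [Group G] (T : Finset G), D ≤ T.card →
      ((cycleGraph (2 * k)).IsContained (biCay T) ∧ (cycleGraph (2 * k)).IsContained (Cay T)) ∨
      ∃ T' ⊆ T, T'.card = M ∧ ∀ n, 3 ≤ n → n ≤ 2 * L →
        ¬ (cycleGraph n).IsContained (biCay T') := by
  classical
  by_contra hcon
  push Not at hcon
  choose Γ hΓ T hT hno1 hno2 using fun D : ℕ => hcon (D + 1)
  have hen := fun D => @exists_enum (Γ D) D (T D) (hT D)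
  choose τ hτ1 hτ2 using hen
  let _ : ∀ D, Group (Γ D) := hΓ
  by_cases hword : ∃ l : List ℕ, l ≠ [] ∧ l.IsChain (· ≠ ·) ∧ l.length ≤ 2 * L ∧
      ∃ v, run (sQ τ) l v = v
  · obtain ⟨l, h1, h2, h3, v, h5⟩ := hword
    have h6 := St_of_word (homog_sQ τ) (sQ_ne τ hτ2) l h1 h2 h3 _ h5 k hk
    obtain ⟨D, x, c, c1, c2, c3⟩ := transfer τ h6
    have hc : (cycleGraph (2 * k)).IsContained (biCay (T D)) := by
      refine contained_of_seq c ?_ c2 ?_
      · intro i hi
        obtain ⟨a, ha⟩ := c1 i hi
        rw [← ha]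
        exact biCay_adj_stp (hτ1 D _) _
      · intro i hi j hj e
        exact c3 i hi j hj (by rw [e])
    have hc' : (cycleGraph (2 * k)).IsContained (Cay (T D)) := by
      refine contained_of_seq (fun i => (c i).1) ?_ (by simp only [c2]) c3
      intro i hi
      obtain ⟨a, ha⟩ := c1 i hi
      refine ⟨?_, ?_⟩
      · intro e
        by_cases h7 : i + 1 < 2 * k
        · have := c3 i hi (i + 1) h7 e
          omega
        · have h8 : i + 1 = 2 * k := by omega
          simp only [h8, c2] at e
          have := c3 i hi 0 (by omega) e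
          omega
      · have h9 := biCay_adj_stp (T := T D) (s := fun j => τ D (x j)) (a := a) (hτ1 D _) (c i)
        rw [ha] at h9
        rcases h9 with h9 | h9
        · exact Or.inl h9.2.2
        · exact Or.inr h9.2.2
    exact (hno1 D hc).false hc'.some
  · push Not at hword
    have hinj := homog_inj (homog_sQ τ) (sQ_ne τ hτ2)
    have e1 : ∀ᶠ p in (Om : Filter ((ℕ → ℕ) × ℕ)), ∀ i ∈ Set.Iio M, ∀ j ∈ Set.Iio M,
        τ p.2 (p.1 i) = τ p.2 (p.1 j) → i = j := by
      rw [Filter.eventually_all_finite (Set.finite_Iio M)]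
      intro i _
      rw [Filter.eventually_all_finite (Set.finite_Iio M)]
      intro j _
      by_cases hij : i = j
      · exact Eventually.of_forall fun p _ => hij
      · have : ((FreeGroup.of i : FreeGroup ℕ) : FreeGroup ℕ ⧸ Nn τ) ≠ (FreeGroup.of j) :=
          fun e => hij (hinj e)
        filter_upwards [ev_ne_of_mk τ this] with p hp e
        rw [evl_of, evl_of] at hp
        exact absurd e hp
    have e2 : ∀ᶠ p in (Om : Filter ((ℕ → ℕ) × ℕ)),
        ∀ l ∈ {l : List ℕ | (∀ a ∈ l, a < M) ∧ l.length ≤ 2 * L}, l ≠ [] →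
          l.IsChain (· ≠ ·) → ∀ b : Bool, b = true ∨ b = false →
            run (fun j => τ p.2 (p.1 j)) l (1, b) ≠ (1, b) := by
      rw [Filter.eventually_all_finite (finite_lists M (2 * L))]
      intro l hl
      by_cases h1 : l ≠ [] ∧ l.IsChain (· ≠ ·)
      · have key : ∀ b : Bool, ∀ᶠ p in (Om : Filter ((ℕ → ℕ) × ℕ)),
            run (fun j => τ p.2 (p.1 j)) l (1, b) ≠ (1, b) := by
          intro b
          have h2 := hword l h1.1 h1.2 hl.2 (1, b)
          have h3 := run_sQ τ l 1 b
          rw [QuotientGroup.mk_one] at h3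
          have h4 : ∀ p : (ℕ → ℕ) × ℕ, run (fun j => τ p.2 (p.1 j)) l (1, b) =
              (evl τ p (run FreeGroup.of l (1, b)).1, (run FreeGroup.of l (1, b)).2) := by
            intro p
            have := run_hom (evl τ p) FreeGroup.of l 1 b
            simp only [evl_of, map_one] at this
            exact this
          by_cases h5 : (run (FreeGroup.of : ℕ → FreeGroup ℕ) l (1, b)).2 = b
          · have h6 : (((run FreeGroup.of l (1, b)).1 : FreeGroup ℕ) : FreeGroup ℕ ⧸ Nn τ) ≠
                ((1 : FreeGroup ℕ) : FreeGroup ℕ ⧸ Nn τ) := by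
              intro e
              apply h2
              rw [h3, e, h5]
              rfl
            filter_upwards [ev_ne_of_mk τ h6] with p hp e
            rw [h4 p] at e
            rw [map_one] at hp
            exact hp (congrArg Prod.fst e)
          · apply Eventually.of_forall
            intro p e
            rw [h4 p] at e
            exact h5 (congrArg Prod.snd e)
        filter_upwards [key true, key false] with p hp1 hp2 _ _ b hb
        rcases hb with rfl | rfl
        · exact hp1
        · exact hp2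
      · apply Eventually.of_forall
        intro p h2 h3
        exact absurd ⟨h2, h3⟩ h1
    obtain ⟨p, hp1, hp2⟩ := (e1.and e2).exists
    obtain ⟨n, hn1, hn2, hn3⟩ := hno2 p.2 ((Finset.range M).image (fun i => τ p.2 (p.1 i))) (by
        intro y hy
        rw [Finset.mem_image] at hy
        obtain ⟨i, _, rfl⟩ := hy
        exact hτ1 _ _) (by
        rw [Finset.card_image_of_injOn, Finset.card_range]
        intro i hi j hj e
        exact hp1 i (by simpa using hi) j (by simpa using hj) e)
    obtain ⟨l, l1, l2, l3, l4, v, l5⟩ := word_of_cycle (s := fun i => τ p.2 (p.1 i)) (M := M) (by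
      intro t ht
      rw [Finset.mem_image] at ht
      obtain ⟨i, hi, rfl⟩ := ht
      exact ⟨i, Finset.mem_range.1 hi, rfl⟩) hn1 hn3
    refine hp2 l ⟨l4, by omega⟩ l1 l2 v.2 (by cases v.2 <;> simp) ?_
    apply Prod.ext
    · exact closed_fst l5
    · rw [run_snd]
      show sd l.length v.2 = v.2
      rw [← run_snd (fun i => τ p.2 (p.1 i)) l v, l5]

end Pool.Agent.Helper20.EC
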