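import Pool.Agent.helper20.EC.Core

/-! [EC-2] All even lengths by gluing.  helper20 -/

namespace Pool.Agent.Helper20.EC

variable {G : Type*} [Group G]

/-- `c` is a closed walk of length `n` along letters whose vertices are distinct, even after
forgetting the side. -/
def IsCyc (s : ℕ → G) (n : ℕ) (c : ℕ → G × Bool) : Prop :=
  (∀ i < n, ∃ a, stp s a (c i) = c (i + 1)) ∧ c n = c 0 ∧
    ∀ i < n, ∀ j < n, (c i).1 = (c j).1 → i = j

/-- There is a cycle of length `n`. -/
def St (s : ℕ → G) (n : ℕ) : Prop := ∃ c, IsCyc s n c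

theorem replace {s : ℕ → G} {c r : ℕ → G × Bool} {n e L : ℕ} (hc : IsCyc s n c) (he : 1 ≤ e)
    (hen : e ≤ n) (hr : ∀ t < L, ∃ a, stp s a (r t) = r (t + 1)) (h0 : r 0 = c (n - e))
    (hL : r L = c 0) (hinj : ∀ i < L, ∀ j < L, (r i).1 = (r j).1 → i = j)
    (hav : ∀ t, 1 ≤ t → t < L → ∀ i < n, (r t).1 ≠ (c i).1) : St s (n - e + L) := by
  refine ⟨fun i => if i < n - e then c i else r (i - (n - e)), ?_, ?_, ?_⟩
  · intro i hi
    by_cases h1 : i + 1 < n - e
    · obtain ⟨a, ha⟩ := hc.1 i (by omega)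
      refine ⟨a, ?_⟩
      simp only [if_pos h1, if_pos (show i < n - e by omega)]
      exact ha
    by_cases h2 : i < n - e
    · obtain ⟨a, ha⟩ := hc.1 i (by omega)
      refine ⟨a, ?_⟩
      simp only [if_neg h1, if_pos h2]
      rw [ha, show i + 1 - (n - e) = 0 by omega, h0, show i + 1 = n - e by omega]
    · obtain ⟨a, ha⟩ := hr (i - (n - e)) (by omega)
      refine ⟨a, ?_⟩
      simp only [if_neg h1, if_neg h2]
      rw [ha, show i - (n - e) + 1 = i + 1 - (n - e) by omega]
  · show (if n - e + L < n - e then c (n - e + L) else r (n - e + L - (n - e))) =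
      (if 0 < n - e then c 0 else r (0 - (n - e)))
    rw [if_neg (by omega), show n - e + L - (n - e) = L by omega, hL]
    split_ifs with h
    · rfl
    · rw [show 0 - (n - e) = 0 by omega, h0, show n - e = 0 by omega]
  · intro i hi j hj h
    have key : ∀ i j, i < n - e → ¬ j < n - e → j < n - e + L →
        (c i).1 ≠ (r (j - (n - e))).1 := by
      intro i j hi hj hj' h
      by_cases hz : j - (n - e) = 0
      · rw [hz, h0] at h
        have := hc.2.2 i (by omega) (n - e) (by omega) h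
        omega
      · exact hav (j - (n - e)) (by omega) (by omega) i (by omega) h.symm
    by_cases h1 : i < n - e <;> by_cases h2 : j < n - e
    · simp only [if_pos h1, if_pos h2] at h
      exact hc.2.2 i (by omega) j (by omega) h
    · simp only [if_pos h1, if_neg h2] at h
      exact absurd h (key i j h1 h2 hj)
    · simp only [if_neg h1, if_pos h2] at h
      exact absurd h.symm (key j i h2 h1 hi)
    · simp only [if_neg h1, if_neg h2] at h
      have := hinj _ (by omega) _ (by omega) h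
      omega

theorem shift {s : ℕ → G} {n : ℕ} (hn : 1 ≤ n) (h : St s n) (b : Bool) :
    ∃ c, IsCyc s n c ∧ (c 0).2 = b := by
  obtain ⟨c, hc⟩ := h
  by_cases hb : (c 0).2 = b
  · exact ⟨c, hc, hb⟩
  · refine ⟨fun i => if i < n then c (i + 1) else c 1, ⟨?_, ?_, ?_⟩, ?_⟩
    · intro i hi
      by_cases h1 : i + 1 < n
      · obtain ⟨a, ha⟩ := hc.1 (i + 1) h1
        refine ⟨a, ?_⟩
        simp only [if_pos hi, if_pos h1]
        exact ha
      · obtain ⟨a, ha⟩ := hc.1 0 (by omega)
        refine ⟨a, ?_⟩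
        simp only [if_pos hi, if_neg h1]
        rw [show i + 1 = n by omega, hc.2.1, ha]
    · simp only [lt_irrefl, if_false, if_pos (show 0 < n by omega)]
    · intro i hi j hj h
      simp only [if_pos hi, if_pos hj] at h
      have key : ∀ i, i < n → (c (i + 1)).1 = (c ((i + 1) % n)).1 := by
        intro i hi
        by_cases h1 : i + 1 < n
        · rw [Nat.mod_eq_of_lt h1]
        · rw [show i + 1 = n by omega, Nat.mod_self, hc.2.1]
      rw [key i hi, key j hj] at h
      have := hc.2.2 _ (Nat.mod_lt _ (by omega)) _ (Nat.mod_lt _ (by omega)) h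
      by_cases h1 : i + 1 < n <;> by_cases h2 : j + 1 < n
      · rw [Nat.mod_eq_of_lt h1, Nat.mod_eq_of_lt h2] at this
        omega
      · rw [Nat.mod_eq_of_lt h1, show j + 1 = n by omega, Nat.mod_self] at this
        omega
      · rw [Nat.mod_eq_of_lt h2, show i + 1 = n by omega, Nat.mod_self] at this
        omega
      · omega
    · simp only [if_pos (show 0 < n by omega)]
      obtain ⟨a, ha⟩ := hc.1 0 (by omega)
      rw [← ha, stp_snd]
      cases hh : (c 0).2 <;> cases b <;> simp_all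

/-- First family of renamings. -/
def fam1 (x B q n : ℕ) : ℕ := if n = 0 then x else B + 1 + 2 * Nat.pair q n

/-- Second family of renamings. -/
def fam2 (y B ζ q n : ℕ) : ℕ :=
  if n = 0 then y else if n = ζ then B + 1 + 2 * Nat.pair q n else B + 2 + 2 * Nat.pair q n

theorem fam1_mono {x B : ℕ} (h : x ≤ B) (q : ℕ) : StrictMono (fam1 x B q) := by
  intro a b hab
  unfold fam1
  have := Nat.pair_lt_pair_right q hab
  split_ifs <;> omega

theorem fam2_mono {y B : ℕ} (h : y ≤ B) (ζ q : ℕ) : StrictMono (fam2 y B ζ q) := by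
  intro a b hab
  unfold fam2
  have := Nat.pair_lt_pair_right q hab
  split_ifs <;> omega

theorem pair_ne {q q' a b : ℕ} (h : q ≠ q') : Nat.pair q a ≠ Nat.pair q' b := by
  intro e
  exact h (Nat.pair_eq_pair.1 e).1

theorem fam1_dis {x B : ℕ} (h : x ≤ B) {q q' : ℕ} (hq : q ≠ q') (a : ℕ) (ha : a ≠ 0) (b : ℕ) :
    fam1 x B q a ≠ fam1 x B q' b := by
  unfold fam1
  have := @pair_ne q q' a b hq
  split_ifs <;> omega

theorem fam2_dis {y B ζ : ℕ} (h : y ≤ B) {q q' : ℕ} (hq : q ≠ q') (a : ℕ) (ha : a ≠ 0) (b : ℕ) :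
    fam2 y B ζ q a ≠ fam2 y B ζ q' b := by
  unfold fam2
  have := @pair_ne q q' a b hq
  split_ifs <;> omega

theorem fam12 {x y B ζ : ℕ} (hx : x ≤ B) (hy : y ≤ B) (hxy : x ≠ y) (q a b : ℕ)
    (h : fam1 x B q a = fam2 y B ζ q b) : a = ζ ∧ b = ζ := by
  unfold fam1 fam2 at h
  split_ifs at h with h1 h2 h3 h4
  · exact absurd h hxy
  · omega
  · omega
  · omega
  · have h5 : Nat.pair q a = Nat.pair q b := by omega
    have := (Nat.pair_eq_pair.1 h5).2
    omega
  · omega

omit [Group G] in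
theorem finite_bad {f : ℕ → ℕ → G} {M : ℕ} (hf : ∀ i, 2 ≤ i → i < M → Function.Injective (f i))
    {F : Set G} (hF : F.Finite) : {q | ∃ i, 2 ≤ i ∧ i < M ∧ f i q ∈ F}.Finite := by
  have : {q | ∃ i, 2 ≤ i ∧ i < M ∧ f i q ∈ F} ⊆ ⋃ i ∈ Set.Ico 2 M, f i ⁻¹' F := by
    rintro q ⟨i, h1, h2, h3⟩
    simp only [Set.mem_iUnion]
    exact ⟨i, ⟨h1, h2⟩, h3⟩
  refine Set.Finite.subset ?_ this
  apply Set.Finite.biUnion (Set.finite_Ico 2 M)
  intro i hi
  exact Set.Finite.preimage ((hf i hi.1 hi.2).injOn) hF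

section

variable {s : ℕ → G} {m : ℕ} {W : List ℕ} {β : Bool} {ζ : ℕ}

open Word

theorem stepA (hW : Word s m W β ζ) (hH : Homog s) (hm : Girth s m) (h2 : 2 ≤ m) {n : ℕ}
    (hn : 1 ≤ n) (h : St s n) : St s (n + (2 * m - 2)) := by
  obtain ⟨c, hc, hb⟩ := shift hn h β
  obtain ⟨x, hx⟩ := hc.1 (n - 1) (by omega)
  rw [show n - 1 + 1 = n by omega, hc.2.1] at hx
  have hx' : stp s x (c 0) = c (n - 1) := by rw [← hx, stp_stp]
  have hF : ((fun i => (c i).1) '' Set.Iio n).Finite := (Set.finite_Iio n).image _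
  have hinj : ∀ i, 2 ≤ i → i < 2 * m →
      Function.Injective (fun q => (pos s W (fam1 x x q) (c 0) i).1) := by
    intro i hi hi' q q' hqq
    by_contra hne
    exact hW.pos_ne hH hm (fam1_mono le_rfl q) (fam1_mono le_rfl q') rfl
      (fun a ha b => fam1_dis le_rfl hne a ha b) (c 0) hb i hi hi' hqq
  obtain ⟨q, hq⟩ := (finite_bad (f := fun i q => (pos s W (fam1 x x q) (c 0) i).1) hinj
    hF).exists_notMem
  have hφ : StrictMono (fam1 x x q) := fam1_mono le_rfl q
  have := replace (r := fun t => pos s W (fam1 x x q) (c 0) (t + 1)) (e := 1) (L := 2 * m - 1) hc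
    le_rfl hn (fun t ht => hW.pos_succ _ _ _ (by omega))
    (by
      show pos s W (fam1 x x q) (c 0) (0 + 1) = c (n - 1)
      rw [zero_add, hW.pos_one]
      exact hx')
    (by
      show pos s W (fam1 x x q) (c 0) (2 * m - 1 + 1) = c 0
      rw [show 2 * m - 1 + 1 = 2 * m by omega, hW.pos_len hH hφ _ hb])
    (by
      intro i hi j hj h
      have := hW.pos_inj hH hm h2 hφ _ hb _ _ (by omega) (by omega) h
      omega)
    (by
      intro t ht ht' i hi h
      exact hq ⟨t + 1, by omega, by omega, ⟨i, hi, h.symm⟩⟩)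
  rwa [show n - 1 + (2 * m - 1) = n + (2 * m - 2) by omega] at this

theorem stepB (hW : Word s m W β ζ) (hH : Homog s) (hm : Girth s m) (h2 : 2 ≤ m) {n : ℕ}
    (hn : 3 ≤ n) (h : St s n) : St s (n + (4 * m - 6)) := by
  obtain ⟨c, hc, hb⟩ := shift (by omega) h (!β)
  obtain ⟨y, hy⟩ := hc.1 (n - 1) (by omega)
  rw [show n - 1 + 1 = n by omega, hc.2.1] at hy
  obtain ⟨x, hx⟩ := hc.1 (n - 2) (by omega)
  rw [show n - 2 + 1 = n - 1 by omega] at hx
  set v := c (n - 1) with hv
  have hvb : v.2 = β := by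
    have := congrArg Prod.snd hy
    rw [stp_snd, hb] at this
    simpa using this
  have hx' : stp s x v = c (n - 2) := by rw [← hx, stp_stp]
  have hxy : x ≠ y := by
    intro e
    subst e
    have h1 : c (n - 2) = c 0 := by rw [← hx', hy]
    have := hc.2.2 (n - 2) (by omega) 0 (by omega) (by rw [h1])
    omega
  have hF : ((fun i => (c i).1) '' Set.Iio n).Finite := (Set.finite_Iio n).image _
  have hxB : x ≤ max x y := le_max_left _ _
  have hyB : y ≤ max x y := le_max_right _ _
  set B := max x y with hB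
  have hinj1 : ∀ i, 2 ≤ i → i < 2 * m →
      Function.Injective (fun q => (pos s W (fam1 x B q) v i).1) := by
    intro i hi hi' q q' hqq
    by_contra hne
    exact hW.pos_ne hH hm (fam1_mono hxB q) (fam1_mono hxB q') rfl
      (fun a ha b => fam1_dis hxB hne a ha b) v hvb i hi hi' hqq
  have hinj2 : ∀ i, 2 ≤ i → i < 2 * m →
      Function.Injective (fun q => (pos s W (fam2 y B ζ q) v i).1) := by
    intro i hi hi' q q' hqq
    by_contra hne
    exact hW.pos_ne hH hm (fam2_mono hyB ζ q) (fam2_mono hyB ζ q') rfl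
      (fun a ha b => fam2_dis hyB hne a ha b) v hvb i hi hi' hqq
  obtain ⟨q, hq⟩ := ((finite_bad (f := fun i q => (pos s W (fam1 x B q) v i).1) hinj1 hF).union
    (finite_bad (f := fun i q => (pos s W (fam2 y B ζ q) v i).1) hinj2 hF)).exists_notMem
  rw [Set.mem_union, not_or] at hq
  obtain ⟨hq1, hq2⟩ := hq
  have hφ : StrictMono (fam1 x B q) := fam1_mono hxB q
  have hψ : StrictMono (fam2 y B ζ q) := fam2_mono hyB ζ q
  have hζ : fam1 x B q ζ = fam2 y B ζ q ζ := by
    simp [fam1, fam2, hW.ne]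
  set P := pos s W (fam1 x B q) v with hP
  set Q := pos s W (fam2 y B ζ q) v with hQ
  have hlast : P (2 * m - 1) = Q (2 * m - 1) := by
    rw [hP, hQ, hW.pos_last hH h2 hφ v hvb, hW.pos_last hH h2 hψ v hvb, hζ]
  have hcross : ∀ i j, 1 ≤ i → i ≤ 2 * m - 1 → 1 ≤ j → j ≤ 2 * m - 2 → (P i).1 ≠ (Q j).1 :=
    fun i j hi hi' hj hj' => hW.pos_cross hH hm h2 hφ hψ hζ
      (fun a b => fam12 hxB hyB hxy q a b) v hvb i j hi hi' hj hj'
  have := replace (r := fun t => if t < 2 * m - 1 then P (t + 1) else Q (4 * m - 3 - t)) (e := 2)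
    (L := 4 * m - 4) hc (by omega) (by omega)
    (by
      intro t ht
      by_cases h1 : t + 1 < 2 * m - 1
      · obtain ⟨a, ha⟩ := hW.pos_succ (fam1 x B q) v (t + 1) (by omega)
        refine ⟨a, ?_⟩
        simp only [if_pos h1, if_pos (show t < 2 * m - 1 by omega)]
        exact ha
      by_cases h3 : t < 2 * m - 1
      · obtain ⟨a, ha⟩ := hW.pos_succ (fam2 y B ζ q) v (2 * m - 2) (by omega)
        refine ⟨a, ?_⟩
        simp only [if_neg h1, if_pos h3]
        rw [show t + 1 = 2 * m - 1 by omega, hlast, show 4 * m - 3 - (2 * m - 1) = 2 * m - 2 by omega]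
        rw [show 2 * m - 2 + 1 = 2 * m - 1 by omega] at ha
        rw [hQ, ← ha, stp_stp]
      · obtain ⟨a, ha⟩ := hW.pos_succ (fam2 y B ζ q) v (4 * m - 3 - (t + 1)) (by omega)
        refine ⟨a, ?_⟩
        simp only [if_neg h1, if_neg h3]
        rw [show 4 * m - 3 - (t + 1) + 1 = 4 * m - 3 - t by omega] at ha
        rw [hQ, ← ha, stp_stp])
    (by
      show (if 0 < 2 * m - 1 then P (0 + 1) else Q (4 * m - 3 - 0)) = c (n - 2)
      rw [if_pos (by omega), zero_add, hP, hW.pos_one]
      exact hx')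
    (by
      show (if 4 * m - 4 < 2 * m - 1 then P (4 * m - 4 + 1) else Q (4 * m - 3 - (4 * m - 4))) = c 0
      rw [if_neg (by omega), show 4 * m - 3 - (4 * m - 4) = 1 by omega, hQ, hW.pos_one, ← hy]
      simp [fam2])
    (by
      intro i hi j hj h
      by_cases h1 : i < 2 * m - 1 <;> by_cases h3 : j < 2 * m - 1
      · simp only [if_pos h1, if_pos h3] at h
        have := hW.pos_inj hH hm h2 hφ _ hvb _ _ (by omega) (by omega) h
        omega
      · simp only [if_pos h1, if_neg h3] at h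
        exact absurd h (hcross _ _ (by omega) (by omega) (by omega) (by omega))
      · simp only [if_neg h1, if_pos h3] at h
        exact absurd h.symm (hcross _ _ (by omega) (by omega) (by omega) (by omega))
      · simp only [if_neg h1, if_neg h3] at h
        have := hW.pos_inj hH hm h2 hψ _ hvb _ _ (by omega) (by omega) h
        omega)
    (by
      intro t ht ht' i hi h
      by_cases h1 : t < 2 * m - 1
      · simp only [if_pos h1] at h
        exact hq1 ⟨t + 1, by omega, by omega, ⟨i, hi, h.symm⟩⟩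
      · simp only [if_neg h1] at h
        exact hq2 ⟨4 * m - 3 - t, by omega, by omega, ⟨i, hi, h.symm⟩⟩)
  rwa [show n - 2 + (4 * m - 4) = n + (4 * m - 6) by omega] at this

theorem start (hW : Word s m W β ζ) (hH : Homog s) (hm : Girth s m) (h2 : 2 ≤ m) :
    St s (2 * m) := by
  refine ⟨pos s W id (1, β), fun i hi => hW.pos_succ _ _ _ hi, ?_, ?_⟩
  · rw [hW.pos_len hH strictMono_id _ rfl, pos_zero]
  · intro i hi j hj h
    exact hW.pos_inj hH hm h2 strictMono_id _ rfl _ _ hi hj h

theorem St_all (hW : Word s m W β ζ) (hH : Homog s) (hm : Girth s m) (h2 : 2 ≤ m) (k : ℕ)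
    (hk : m + (m - 2) * (2 * m - 3) ≤ k) : St s (2 * k) := by
  have h1 : ∀ a, St s (2 * m + a * (2 * m - 2)) := by
    intro a
    induction a with
    | zero => simpa using start hW hH hm h2
    | succ a ih =>
      have := stepA hW hH hm h2 (by omega) ih
      rwa [show 2 * m + a * (2 * m - 2) + (2 * m - 2) = 2 * m + (a + 1) * (2 * m - 2) by ring] at this
  have h3 : ∀ b a, St s (2 * m + a * (2 * m - 2) + b * (4 * m - 6)) := by
    intro b a
    induction b with
    | zero => simpa using h1 a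
    | succ b ih =>
      have := stepB hW hH hm h2 (by omega) ih
      rwa [show 2 * m + a * (2 * m - 2) + b * (4 * m - 6) + (4 * m - 6) =
        2 * m + a * (2 * m - 2) + (b + 1) * (4 * m - 6) by ring] at this
  obtain ⟨M, rfl⟩ : ∃ M, m = M + 2 := ⟨m - 2, by omega⟩
  obtain ⟨K, rfl⟩ : ∃ K, k = M + 2 + K := ⟨k - (M + 2), by
    have : M + 2 ≤ k := le_trans (Nat.le_add_right _ _) hk
    omega⟩
  have hK : M * (2 * M + 1) ≤ K := by
    have e : (M + 2 - 2) * (2 * (M + 2) - 3) = M * (2 * M + 1) := by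
      rw [show M + 2 - 2 = M by omega, show 2 * (M + 2) - 3 = 2 * M + 1 by omega]
    rw [e] at hk
    omega
  obtain ⟨b, hb, c, hc⟩ : ∃ b, b ≤ M ∧ ∃ c, K + b = (M + 1) * c := by
    refine ⟨M - (K + M) % (M + 1), by omega, ?_⟩
    have h4 : (K + M) % (M + 1) < M + 1 := Nat.mod_lt _ (by omega)
    obtain ⟨c, hc⟩ := Nat.dvd_sub_mod (n := M + 1) (K + M)
    exact ⟨c, by rw [← hc]; omega⟩
  have hcb : 2 * b ≤ c := by
    by_contra hcon
    push Not at hcon
    have h5 : c + 1 ≤ 2 * b := hcon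
    have h6 : (M + 1) * (c + 1) ≤ (M + 1) * (2 * b) := Nat.mul_le_mul_left _ h5
    have h7 : b * (2 * M + 1) ≤ M * (2 * M + 1) := Nat.mul_le_mul_right _ hb
    nlinarith
  obtain ⟨a, rfl⟩ : ∃ a, c = 2 * b + a := ⟨c - 2 * b, by omega⟩
  have := h3 b a
  rw [show 2 * (M + 2) - 2 = 2 * M + 2 by omega, show 4 * (M + 2) - 6 = 4 * M + 2 by omega] at this
  rwa [show 2 * (M + 2) + a * (2 * M + 2) + b * (4 * M + 2) = 2 * (M + 2 + K) by
    nlinarith] at this

end

end Pool.Agent.Helper20.EC
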