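import Pool.Agent.helper20.EC.Law

/-! [EC-6] Graphs with a semiregular group of automorphisms satisfying a law.  helper20 -/

namespace Pool.Agent.Helper20.EC

open SimpleGraph

/-- A closed sequence of distinct vertices gives a copy of the cycle graph. -/
theorem contained_of_seq {V : Type*} {Γ : SimpleGraph V} {n : ℕ} (f : ℕ → V)
    (hadj : ∀ i < n, Γ.Adj (f i) (f (i + 1))) (hcl : f n = f 0)
    (hinj : ∀ i < n, ∀ j < n, f i = f j → i = j) : (cycleGraph n).IsContained Γ := by
  have key : ∀ u v : Fin n, (v - u).val = 1 → Γ.Adj (f u) (f v) := by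
    intro u v h
    obtain ⟨u, hu⟩ := u
    obtain ⟨v, hv⟩ := v
    rw [Fin.sub_def] at h
    simp only at h
    have h1 := hadj u hu
    by_cases h2 : u + 1 < n
    · have : v = u + 1 := by
        by_cases h3 : u ≤ v
        · rw [show n - u + v = (v - u) + n by omega, Nat.add_mod_right,
            Nat.mod_eq_of_lt (by omega)] at h
          omega
        · rw [Nat.mod_eq_of_lt (by omega)] at h
          omega
      subst this
      exact h1
    · have h3 : u + 1 = n := by omega
      have : v = 0 := by
        rw [show n - u = 1 by omega] at h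
        by_cases h4 : 1 + v < n
        · rw [Nat.mod_eq_of_lt h4] at h
          omega
        · rw [show 1 + v = n by omega, Nat.mod_self] at h
          omega
      subst this
      rw [h3, hcl] at h1
      exact h1
  refine ⟨⟨⟨fun i => f i, ?_⟩, ?_⟩⟩
  · intro u v h
    rw [cycleGraph_adj'] at h
    rcases h with h | h
    · exact (key v u h).symm
    · exact key u v h
  · intro u v h
    exact Fin.ext (hinj u u.2 v v.2 h)

variable {V : Type*} {Γ : SimpleGraph V} {G : Type*} [Group G] [MulAction G V]

/-- Two-orbit case. -/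
theorem contained_two (hact : ∀ (g : G) (u v : V), Γ.Adj u v → Γ.Adj (g • u) (g • v))
    (hfree : ∀ (g : G) (v : V), g • v = v → g = 1) {v r : V} (hvr : ∀ g : G, g • r ≠ v)
    {s : ℕ → G} (hs : ∀ n, Γ.Adj v (s n • r)) {n : ℕ} (h : St s n) :
    (cycleGraph n).IsContained Γ := by
  obtain ⟨c, h1, h2, h3⟩ := h
  set F : G × Bool → V := fun p => bif p.2 then p.1 • r else p.1 • v with hF
  have hadj : ∀ (a : ℕ) (p : G × Bool), Γ.Adj (F p) (F (stp s a p)) := by
    intro a p
    obtain ⟨g, b⟩ := p
    cases b
    · have := hact g _ _ (hs a)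
      rw [smul_smul] at this
      simpa [hF, stp] using this
    · have := hact (g * (s a)⁻¹) _ _ (hs a)
      rw [smul_smul, inv_mul_cancel_right] at this
      simpa [hF, stp] using this.symm
  have hfree' : ∀ (g g' : G) (x : V), g • x = g' • x → g = g' := by
    intro g g' x e
    have : (g'⁻¹ * g) • x = x := by rw [mul_smul, e, inv_smul_smul]
    have := hfree _ _ this
    rw [inv_mul_eq_one] at this
    exact this.symm
  have hne : ∀ g g' : G, g • v ≠ g' • r := by
    intro g g' e
    apply hvr (g⁻¹ * g')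
    rw [mul_smul, ← e, inv_smul_smul]
  refine contained_of_seq (fun i => F (c i)) ?_ (by simp only [h2]) ?_
  · intro i hi
    obtain ⟨a, ha⟩ := h1 i hi
    have := hadj a (c i)
    rw [ha] at this
    exact this
  · intro i hi j hj e
    apply h3 i hi j hj
    simp only [hF] at e
    cases hb : (c i).2 <;> cases hb' : (c j).2 <;> simp only [hb, hb', cond_true, cond_false] at e
    · exact hfree' _ _ _ e
    · exact absurd e (hne _ _)
    · exact absurd e.symm (hne _ _)
    · exact hfree' _ _ _ e

/-- One-orbit case. -/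
theorem contained_one (hact : ∀ (g : G) (u v : V), Γ.Adj u v → Γ.Adj (g • u) (g • v))
    (hfree : ∀ (g : G) (v : V), g • v = v → g = 1) {v : V}
    {s : ℕ → G} (hs : ∀ n, Γ.Adj v (s n • v)) {n : ℕ} (h : St s n) :
    (cycleGraph n).IsContained Γ := by
  obtain ⟨c, h1, h2, h3⟩ := h
  have hadj : ∀ (a : ℕ) (p : G × Bool), Γ.Adj (p.1 • v) ((stp s a p).1 • v) := by
    intro a p
    obtain ⟨g, b⟩ := p
    cases b
    · have := hact g _ _ (hs a)
      rw [smul_smul] at this
      simpa [stp] using this
    · have := hact (g * (s a)⁻¹) _ _ (hs a)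
      rw [smul_smul, inv_mul_cancel_right] at this
      simpa [stp] using this.symm
  have hfree' : ∀ (g g' : G) (x : V), g • x = g' • x → g = g' := by
    intro g g' x e
    have : (g'⁻¹ * g) • x = x := by rw [mul_smul, e, inv_smul_smul]
    have := hfree _ _ this
    rw [inv_mul_eq_one] at this
    exact this.symm
  refine contained_of_seq (fun i => (c i).1 • v) ?_ (by simp only [h2]) ?_
  · intro i hi
    obtain ⟨a, ha⟩ := h1 i hi
    have := hadj a (c i)
    rw [ha] at this
    exact this
  · intro i hi j hj e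
    exact h3 i hi j hj (hfree' _ _ _ e)

theorem exists_deg {V : Type*} [Fintype V] (Γ : SimpleGraph V) (N : ℕ)
    (h : N * Fintype.card V < Γ.edgeSet.ncard) :
    ∃ (v : V) (S : Finset V), (∀ u ∈ S, Γ.Adj v u) ∧ N < S.card := by
  classical
  have h1 : Γ.edgeSet.ncard = Γ.edgeFinset.card := by
    rw [← Set.ncard_coe_finset, coe_edgeFinset]
  rw [h1] at h
  have h2 := Γ.sum_degrees_eq_twice_card_edges
  have h3 : ∃ v ∈ (Finset.univ : Finset V), N < Γ.degree v := by
    by_contra hcon
    push Not at hcon
    have h4 : ∑ v : V, Γ.degree v ≤ ∑ _v : V, N := Finset.sum_le_sum hcon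
    rw [Finset.sum_const, smul_eq_mul, Finset.card_univ, h2] at h4
    have : Fintype.card V * N = N * Fintype.card V := Nat.mul_comm _ _
    omega
  obtain ⟨v, _, hv⟩ := h3
  exact ⟨v, Γ.neighborFinset v, fun u hu => by simpa using hu, by simpa using hv⟩

/-- Main theorem, graph version. -/
theorem graph_law.{u, v} (w : FreeGroup ℕ) (hw : w ≠ 1) (k : ℕ) (hk : 2 * w.norm ^ 2 ≤ k) :
    ∃ D : ℕ, ∀ (V : Type u) [Fintype V] (Γ : SimpleGraph V) (G : Type v) [Group G]
      [MulAction G V], (∀ f : ℕ → G, FreeGroup.lift f w = 1) →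
      (∀ (g : G) (a b : V), Γ.Adj a b → Γ.Adj (g • a) (g • b)) →
      (∀ (g : G) (a : V), g • a = a → g = 1) →
      ∀ R : Finset V, (∀ a : V, ∃ r ∈ R, ∃ g : G, g • r = a) →
        D * R.card * Fintype.card V < Γ.edgeSet.ncard →
        (cycleGraph (2 * k)).IsContained Γ := by
  obtain ⟨D, hD⟩ := group_law.{v} w hw k hk
  refine ⟨D, ?_⟩
  intro V _ Γ G _ _ hlaw hact hfree R hR hcard
  classical
  obtain ⟨a, S, hS, hSc⟩ := exists_deg Γ (D * R.card) hcard
  choose ρ hρ1 g hg using hR
  rw [mul_comm] at hSc
  obtain ⟨r, hr, hfib⟩ := Finset.exists_lt_card_fiber_of_mul_lt_card_of_maps_to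
    (f := ρ) (s := S) (t := R) (fun u _ => hρ1 u) hSc
  set T : Finset G := (S.filter (fun u => ρ u = r)).image g with hT
  have hTc : D ≤ T.card := by
    rw [hT, Finset.card_image_of_injOn]
    · exact hfib.le
    · intro x hx y hy e
      simp only [Finset.coe_filter, Set.mem_ofPred_eq] at hx hy
      rw [← hg x, ← hg y, hx.2, hy.2, e]
  have hTadj : ∀ t ∈ T, Γ.Adj a (t • r) := by
    intro t ht
    rw [hT, Finset.mem_image] at ht
    obtain ⟨u, hu, rfl⟩ := ht
    rw [Finset.mem_filter] at hu
    rw [← hu.2, hg u]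
    exact hS u hu.1
  by_cases horb : ∃ h : G, h • r = a
  · obtain ⟨h, hh⟩ := horb
    have hr' : r = h⁻¹ • a := by rw [← hh, inv_smul_smul]
    obtain ⟨s, hs, hSt⟩ := hD G hlaw (T.image (fun t => t * h⁻¹)) (by
      rw [Finset.card_image_of_injective _ (mul_left_injective _)]
      exact hTc)
    refine contained_one hact hfree (v := a) (s := s) ?_ hSt
    intro n
    have := hs n
    rw [Finset.mem_image] at this
    obtain ⟨t, ht, e⟩ := this
    rw [← e, mul_smul, ← hr']
    exact hTadj t ht
  · push Not at horb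
    obtain ⟨s, hs, hSt⟩ := hD G hlaw T hTc
    exact contained_two hact hfree horb (fun n => hTadj _ (hs n)) hSt

end Pool.Agent.Helper20.EC
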