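import Pool.Agent.helper20.EC.Ultra

/-! [EC-5] Groups satisfying a law: the group-theoretic form of the theorem.  helper20 -/

namespace Pool.Agent.Helper20.EC

open Filter

/-- Substitution `x_n ↦ x_{n+1} x_0⁻¹`. -/
def theta : FreeGroup ℕ →* FreeGroup ℕ :=
  FreeGroup.lift (fun n => FreeGroup.of (n + 1) * (FreeGroup.of 0)⁻¹)

theorem theta_inj : Function.Injective theta := by
  have h : (FreeGroup.lift (fun n : ℕ => if n = 0 then (1 : FreeGroup ℕ) else
      FreeGroup.of (n - 1))).comp theta = MonoidHom.id (FreeGroup ℕ) := by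
    ext n
    simp [theta]
  intro a b hab
  have h1 := DFunLike.congr_fun h a
  have h2 := DFunLike.congr_fun h b
  rw [MonoidHom.comp_apply, hab] at h1
  rw [MonoidHom.comp_apply, h1] at h2
  simpa using h2

theorem exists_list_aux (L : List (ℕ × Bool)) : ∃ l : List ℕ, l.length = 2 * L.length ∧
    ∀ g : FreeGroup ℕ, run FreeGroup.of l (g, false) = (g * theta (FreeGroup.mk L), false) := by
  induction L with
  | nil => exact ⟨[], rfl, fun g => by
      rw [← FreeGroup.one_eq_mk, map_one, mul_one]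
      rfl⟩
  | cons p L ih =>
    obtain ⟨l, hl, h⟩ := ih
    obtain ⟨n, b⟩ := p
    have e1 : FreeGroup.mk ((n, b) :: L) = FreeGroup.mk [(n, b)] * FreeGroup.mk L := by
      rw [FreeGroup.mul_mk]
      rfl
    cases b
    · refine ⟨0 :: (n + 1) :: l, by simp [hl]; ring, fun g => ?_⟩
      have e2 : theta (FreeGroup.mk [(n, false)]) = FreeGroup.of 0 * (FreeGroup.of (n + 1))⁻¹ := by
        have : FreeGroup.mk [(n, false)] = (FreeGroup.of n)⁻¹ := by
          rw [FreeGroup.of, FreeGroup.inv_mk]
          rfl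
        rw [this, map_inv]
        simp [theta]
      rw [run_cons, run_cons, e1, map_mul, e2]
      simp only [stp, cond_false, cond_true, Bool.not_false, Bool.not_true]
      rw [h]
      simp only [mul_assoc]
    · refine ⟨(n + 1) :: 0 :: l, by simp [hl]; ring, fun g => ?_⟩
      have e2 : theta (FreeGroup.mk [(n, true)]) = FreeGroup.of (n + 1) * (FreeGroup.of 0)⁻¹ := by
        have : FreeGroup.mk [(n, true)] = FreeGroup.of n := rfl
        rw [this]
        simp [theta]
      rw [run_cons, run_cons, e1, map_mul, e2]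
      simp only [stp, cond_false, cond_true, Bool.not_false, Bool.not_true]
      rw [h]
      simp only [mul_assoc]

/-- A shortest alternating word for a nontrivial element is reduced. -/
theorem exists_reduced {x : FreeGroup ℕ} (hx : x ≠ 1) (l0 : List ℕ)
    (h0 : run FreeGroup.of l0 (1, false) = (x, false)) : ∃ l : List ℕ, l ≠ [] ∧
    l.IsChain (· ≠ ·) ∧ l.length ≤ l0.length ∧ run FreeGroup.of l (1, false) = (x, false) := by
  classical
  have hex : ∃ n, ∃ l : List ℕ, l.length = n ∧ run FreeGroup.of l (1, false) = (x, false) :=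
    ⟨_, l0, rfl, h0⟩
  obtain ⟨l, hl, hr⟩ := Nat.find_spec hex
  refine ⟨l, ?_, ?_, ?_, hr⟩
  · rintro rfl
    rw [run_nil] at hr
    exact hx (congrArg Prod.fst hr).symm
  · rw [List.isChain_iff_forall_rel_of_append_cons_cons]
    intro a b l1 l2 e hab
    subst hab
    have h1 : run FreeGroup.of (l1 ++ l2) (1, false) = (x, false) := by
      rw [e, run_append, run_cons, run_cons, stp_stp, ← run_append] at hr
      exact hr
    have h2 := Nat.find_min' hex ⟨l1 ++ l2, rfl, h1⟩
    rw [← hl, e] at h2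
    simp at h2
  · rw [hl]
    exact Nat.find_min' hex ⟨l0, rfl, h0⟩

theorem exists_list {w : FreeGroup ℕ} (hw : w ≠ 1) : ∃ l : List ℕ, l ≠ [] ∧
    l.IsChain (· ≠ ·) ∧ l.length ≤ 2 * w.norm ∧
    run FreeGroup.of l (1, false) = (theta w, false) := by
  obtain ⟨l0, h1, h2⟩ := exists_list_aux w.toWord
  have h3 := h2 1
  rw [FreeGroup.mk_toWord, one_mul] at h3
  have h4 : theta w ≠ 1 := fun e => hw (theta_inj (by rw [e, map_one]))
  obtain ⟨l, a, b, c, d⟩ := exists_reduced h4 l0 h3
  refine ⟨l, a, b, ?_, d⟩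
  rw [h1] at c
  exact c

/-- Enumerate a large finite set by a sequence. -/
theorem exists_enum {G : Type*} (D : ℕ) (T : Finset G) (h : D + 1 ≤ T.card) :
    ∃ t : ℕ → G, (∀ n, t n ∈ T) ∧ ∀ i < D, ∀ j < D, t i = t j → i = j := by
  classical
  have h0 : 0 < T.card := by omega
  refine ⟨fun n => if hn : n < T.card then (T.equivFin.symm ⟨n, hn⟩ : G) else
    (T.equivFin.symm ⟨0, h0⟩ : G), ?_, ?_⟩
  · intro n
    show (if hn : n < T.card then (T.equivFin.symm ⟨n, hn⟩ : G) else
      (T.equivFin.symm ⟨0, h0⟩ : G)) ∈ T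
    split_ifs with hn
    · exact (T.equivFin.symm ⟨n, hn⟩).2
    · exact (T.equivFin.symm ⟨0, h0⟩).2
  · intro i hi j hj e
    simp only [dif_pos (show i < T.card by omega), dif_pos (show j < T.card by omega)] at e
    have := T.equivFin.symm.injective (Subtype.ext e)
    simpa using this

/-- Main theorem, group version: groups satisfying a law. -/
theorem group_law.{u} (w : FreeGroup ℕ) (hw : w ≠ 1) (k : ℕ) (hk : 2 * w.norm ^ 2 ≤ k) :
    ∃ D : ℕ, ∀ (G : Type u) [Group G], (∀ f : ℕ → G, FreeGroup.lift f w = 1) →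
      ∀ T : Finset G, D ≤ T.card → ∃ s : ℕ → G, (∀ n, s n ∈ T) ∧ St s (2 * k) := by
  by_contra hcon
  push Not at hcon
  choose Γ hΓ hlaw T hT hno using fun D : ℕ => hcon (D + 1)
  have hen := fun D => @exists_enum (Γ D) D (T D) (hT D)
  choose τ hτ1 hτ2 using hen
  let _ : ∀ D, Group (Γ D) := hΓ
  obtain ⟨l, h1, h2, h3, h4⟩ := exists_list hw
  have hmem : theta w ∈ Nn τ := by
    rw [mem_Nn]
    apply Eventually.of_forall
    intro p
    have e : (evl τ p).comp theta =
        FreeGroup.lift (fun n => evl τ p (FreeGroup.of (n + 1) * (FreeGroup.of 0)⁻¹)) := by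
      ext n
      simp [theta]
    have := DFunLike.congr_fun e w
    rw [MonoidHom.comp_apply] at this
    rw [this]
    exact hlaw p.2 _
  have h5 : run (sQ τ) l (1, false) = (1, false) := by
    have := run_sQ τ l 1 false
    rw [QuotientGroup.mk_one, h4] at this
    rw [this, (QuotientGroup.eq_one_iff _).2 hmem]
  have h6 := St_of_word (homog_sQ τ) (sQ_ne τ hτ2) l h1 h2 h3 _ h5 k hk
  obtain ⟨D, x, hx⟩ := transfer τ h6
  exact hno D (fun i => τ D (x i)) (fun n => hτ1 D _) hx

end Pool.Agent.Helper20.EC
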