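import Pool.Agent.helper20.EC.Glue

/-! [EC-3] Normal form of a shortest closed word.  helper20 -/

namespace Pool.Agent.Helper20.EC

variable {G : Type*} [Group G]

theorem sd_even (n : ℕ) (b : Bool) (h : sd n b = b) : Even n := by
  have key : ∀ n : ℕ, (∀ b, sd (2 * n) b = b) ∧ (∀ b, sd (2 * n + 1) b = !b) := by
    intro n
    induction n with
    | zero => exact ⟨fun b => rfl, fun b => rfl⟩
    | succ n ih =>
      refine ⟨fun b => ?_, fun b => ?_⟩
      · rw [show 2 * (n + 1) = 2 * n + 1 + 1 by ring, sd, ih.2, Bool.not_not]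
      · rw [show 2 * (n + 1) + 1 = 2 * n + 1 + 1 + 1 by ring, sd, sd, Bool.not_not, ih.2]
  rcases Nat.even_or_odd' n with ⟨k, rfl | rfl⟩
  · exact even_two_mul k
  · rw [(key k).2] at h
    cases b <;> simp at h

theorem closed_fst {s : ℕ → G} {l : List ℕ} {v : G × Bool} (h : run s l v = v) :
    (run s l (1, v.2)).1 = 1 := by
  have := run_fst s l v.1 v.2
  rw [Prod.mk.eta, h] at this
  simpa using this

theorem homog_inj {s : ℕ → G} (hH : Homog s) (h01 : s 0 ≠ s 1) : Function.Injective s := by
  have key : ∀ a b, a < b → s a ≠ s b := by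
    intro a b hab e
    have hφ : StrictMono (fun n : ℕ => if n = 0 then a else b + n) := by
      intro x y hxy
      show (if x = 0 then a else b + x) < (if y = 0 then a else b + y)
      split_ifs <;> omega
    have hψ : StrictMono (fun n : ℕ => if n = 0 then a else if n = 1 then b else b + n) := by
      intro x y hxy
      show (if x = 0 then a else if x = 1 then b else b + x) <
        (if y = 0 then a else if y = 1 then b else b + y)
      split_ifs <;> omega
    have := (hH _ hψ [0, 1] false).1 (by simp [stp, e])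
    simp [stp] at this
    exact h01 (mul_inv_eq_one.1 this)
  intro a b e
  rcases lt_trichotomy a b with h | h | h
  · exact absurd e (key a b h)
  · exact h
  · exact absurd e.symm (key b a h)

theorem exists_word {s : ℕ → G} (hH : Homog s) (h01 : s 0 ≠ s 1) {L : ℕ} (l0 : List ℕ)
    (hne : l0 ≠ []) (hc : l0.IsChain (· ≠ ·)) (hlen : l0.length ≤ 2 * L) (v0 : G × Bool)
    (hcl : run s l0 v0 = v0) :
    ∃ m W β ζ, 2 ≤ m ∧ m ≤ L ∧ Girth s m ∧ Word s m W β ζ := by
  classical
  have hinj := homog_inj hH h01
  have hex : ∃ n, ∃ l : List ℕ, l ≠ [] ∧ l.IsChain (· ≠ ·) ∧ l.length = n ∧ ∃ v, run s l v = v :=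
    ⟨_, l0, hne, hc, rfl, v0, hcl⟩
  obtain ⟨l, hl, hlc, hln, v, hv⟩ := Nat.find_spec hex
  have hmin : ∀ l' : List ℕ, l' ≠ [] → l'.IsChain (· ≠ ·) → l'.length < Nat.find hex →
      ∀ v, run s l' v ≠ v := fun l' h1 h2 h3 v' h4 =>
    Nat.find_min hex h3 ⟨l', h1, h2, rfl, v', h4⟩
  have hle : Nat.find hex ≤ 2 * L :=
    (Nat.find_min' hex ⟨l0, hne, hc, rfl, v0, hcl⟩).trans hlen
  have hev : Even (Nat.find hex) := by
    rw [← hln]
    apply sd_even _ v.2
    rw [← run_snd s, hv]
  set N := Nat.find hex with hN
  obtain ⟨m, hm⟩ := hev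
  have hNm : N = 2 * m := by omega
  rw [hNm] at hmin hln
  have hG : Girth s m := hmin
  have h2m : 2 ≤ m := by
    by_contra hcon
    rcases l with _ | ⟨a, _ | ⟨b, _ | ⟨c, l⟩⟩⟩
    · exact hl rfl
    · simp at hln
      omega
    · simp at hlc
      have h1 := congrArg Prod.fst hv
      obtain ⟨g, t⟩ := v
      cases t
      · simp [stp, mul_assoc] at h1
        exact hlc (hinj (mul_inv_eq_one.1 h1))
      · simp [stp, mul_assoc] at h1
        exact hlc (hinj (inv_mul_eq_one.1 h1))
    · simp at hln
      omega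
  -- cyclically reduced
  have hcyc : ∀ x ∈ l.getLast?, ∀ y ∈ l.head?, x ≠ y := by
    intro x hx y hy e
    subst e
    rcases l with _ | ⟨a, l'⟩
    · exact hl rfl
    have hya : a = x := by simpa using hy
    subst hya
    rcases List.eq_nil_or_concat l' with rfl | ⟨M, b, rfl⟩
    · simp at hln
      omega
    · rw [List.concat_eq_append] at *
      have hb : b = a := by
        rw [← List.cons_append, List.getLast?_append] at hx
        simpa using hx
      subst hb
      have h1 : run s M (stp s b v) = stp s b v := by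
        rw [run_cons, run_append] at hv
        apply stp_inj s b
        rw [stp_stp]
        exact hv
      have hM : M ≠ [] := by
        rintro rfl
        simp at hlc
      refine hG M hM ?_ ?_ _ h1
      · have := List.isChain_of_isChain_cons hlc
        exact (List.isChain_append.1 this).1
      · simp at hln
        omega
  -- minimal letter
  obtain ⟨e, hel, hemin⟩ : ∃ e ∈ l, ∀ a ∈ l, e ≤ a := by
    have hmem : ∃ e, e ∈ l := List.exists_mem_of_ne_nil l hl
    exact ⟨Nat.find hmem, Nat.find_spec hmem, fun a ha => Nat.find_min' hmem ha⟩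
  obtain ⟨A, B, hAB⟩ := List.append_of_mem hel
  have hrot : run s ((e :: B) ++ A) (run s A v) = run s A v := by
    rw [run_append, ← run_append s A, ← hAB, hv]
  have hrc : ((e :: B) ++ A).IsChain (· ≠ ·) := by
    have h1 := hlc
    rw [hAB, List.isChain_append] at h1
    rw [List.isChain_append]
    refine ⟨h1.2.1, h1.1, ?_⟩
    intro x hx y hy
    apply hcyc x _ y
    · rcases A with _ | ⟨c, A⟩
      · simp at hy
      · rw [hAB]
        simpa using hy
    · rw [hAB, List.getLast?_append]
      rw [Option.mem_def] at hx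
      rw [hx]
      rfl
  have hrl : ((e :: B) ++ A).length = 2 * m := by
    rw [← hln, hAB]
    simp only [List.length_append, List.length_cons]
    omega
  have hmemr : ∀ a ∈ (e :: B) ++ A, e ≤ a := by
    intro a ha
    apply hemin
    rw [hAB]
    simp only [List.mem_append] at ha ⊢
    tauto
  have hmap : (((e :: B) ++ A).map (fun n => n - e)).map (fun n => n + e) = (e :: B) ++ A := by
    rw [List.map_map]
    conv_rhs => rw [← List.map_id ((e :: B) ++ A)]
    apply List.map_congr_left
    intro a ha
    have := hmemr a ha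
    simp only [Function.comp, id]
    omega
  have hφ : StrictMono (fun n : ℕ => n + e) := fun a b hab => by
    show a + e < b + e
    omega
  obtain ⟨R, z, hRz⟩ : ∃ R z, (e :: B) ++ A = R ++ [z] := by
    rcases List.eq_nil_or_concat ((e :: B) ++ A) with h | ⟨R, z, h⟩
    · simp at h
    · exact ⟨R, z, by rw [h, List.concat_eq_append]⟩
  have hze : z ≠ e := by
    rcases List.eq_nil_or_concat A with rfl | ⟨A', c, rfl⟩
    · rw [List.append_nil] at hRz
      intro h
      refine hcyc z ?_ e ?_ h
      · rw [hAB, List.nil_append, hRz]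
        simp
      · rw [hAB]
        simp
    · rw [List.concat_eq_append] at *
      have h1 : z = c := by
        have h0 : (e :: B ++ A') ++ [c] = R ++ [z] := by rw [← hRz]; simp
        have := (List.append_inj' h0 rfl).2
        simpa using this.symm
      subst h1
      have := hlc
      rw [hAB, List.isChain_append] at this
      exact this.2.2 z (by simp) e (by simp)
  have hez : e ≤ z := by
    apply hmemr
    rw [hRz]
    simp
  have hclosed1 := closed_fst hrot
  refine ⟨m, ((e :: B) ++ A).map (fun n => n - e), (run s A v).2, z - e, h2m, by omega, hG,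
    ⟨?_, ?_, ?_, ?_, ?_, ?_⟩⟩
  · have := hrc
    rw [← hmap, List.isChain_map] at this
    exact this.imp fun a b hab h => hab (by rw [h])
  · rw [List.length_map, hrl]
  · exact ⟨(B ++ A).map (fun n => n - e), by simp⟩
  · exact ⟨R.map (fun n => n - e), by rw [hRz]; simp⟩
  · omega
  · intro w hw
    rw [← hmap, hH _ hφ] at hclosed1
    apply Prod.ext
    · have := run_fst s (((e :: B) ++ A).map (fun n => n - e)) w.1 w.2
      rw [Prod.mk.eta] at this
      rw [this, hw, hclosed1, mul_one]
    · rw [run_snd, List.length_map, hw, ← run_snd s, hrot]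

/-- All large even lengths occur as soon as there is one short closed word. -/
theorem St_of_word {s : ℕ → G} (hH : Homog s) (h01 : s 0 ≠ s 1) {L : ℕ} (l0 : List ℕ)
    (hne : l0 ≠ []) (hc : l0.IsChain (· ≠ ·)) (hlen : l0.length ≤ 2 * L) (v0 : G × Bool)
    (hcl : run s l0 v0 = v0) (k : ℕ) (hk : 2 * L ^ 2 ≤ k) : St s (2 * k) := by
  obtain ⟨m, W, β, ζ, h2, hmL, hG, hW⟩ := exists_word hH h01 l0 hne hc hlen v0 hcl
  apply St_all hW hH hG h2
  refine le_trans ?_ hk
  obtain ⟨M, rfl⟩ : ∃ M, m = M + 2 := ⟨m - 2, by omega⟩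
  obtain ⟨t, rfl⟩ : ∃ t, L = M + 2 + t := ⟨L - (M + 2), by omega⟩
  rw [show M + 2 - 2 = M by omega, show 2 * (M + 2) - 3 = 2 * M + 1 by omega]
  nlinarith

end Pool.Agent.Helper20.EC
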