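import Mathlib

/-! [EC-7] The solvability law `δ_l` as an element of a free group.  helper20 -/

namespace Pool.Agent.Helper20.EC

open scoped commutatorElement

/-- The law of solvable groups of derived length at most `l`. -/
def dlt : ℕ → FreeGroup ℕ
  | 0 => FreeGroup.of 0
  | l + 1 => ⁅FreeGroup.map (fun n => 2 * n) (dlt l), FreeGroup.map (fun n => 2 * n + 1) (dlt l)⁆

theorem norm_map_le (f : ℕ → ℕ) (x : FreeGroup ℕ) : (FreeGroup.map f x).norm ≤ x.norm := by
  conv_lhs => rw [← FreeGroup.mk_toWord (x := x)]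
  rw [FreeGroup.map.mk]
  refine (FreeGroup.norm_mk_le).trans ?_
  rw [List.length_map]
  rfl

theorem norm_dlt (l : ℕ) : (dlt l).norm ≤ 4 ^ l := by
  induction l with
  | zero => simp [dlt]
  | succ l ih =>
    rw [dlt, commutatorElement_def]
    have h1 := norm_map_le (fun n => 2 * n) (dlt l)
    have h2 := norm_map_le (fun n => 2 * n + 1) (dlt l)
    set a := FreeGroup.map (fun n => 2 * n) (dlt l)
    set b := FreeGroup.map (fun n => 2 * n + 1) (dlt l)
    have h3 := FreeGroup.norm_mul_le (a * b * a⁻¹) b⁻¹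
    have h4 := FreeGroup.norm_mul_le (a * b) a⁻¹
    have h5 := FreeGroup.norm_mul_le a b
    rw [FreeGroup.norm_inv_eq] at h3 h4
    rw [pow_succ]
    omega

theorem lift_dlt_mem {G : Type*} [Group G] (l : ℕ) : ∀ f : ℕ → G,
    FreeGroup.lift f (dlt l) ∈ derivedSeries G l := by
  induction l with
  | zero => intro f; simp
  | succ l ih =>
    intro f
    rw [dlt, map_commutatorElement, derivedSeries_succ]
    apply Subgroup.commutator_mem_commutator
    · have := ih (fun n => f (2 * n))
      rwa [show FreeGroup.lift f (FreeGroup.map (fun n => 2 * n) (dlt l)) =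
        FreeGroup.lift (fun n => f (2 * n)) (dlt l) by
        have : (FreeGroup.lift f).comp (FreeGroup.map (fun n => 2 * n)) =
          FreeGroup.lift (fun n => f (2 * n)) := by ext n; simp
        exact DFunLike.congr_fun this _]
    · have := ih (fun n => f (2 * n + 1))
      rwa [show FreeGroup.lift f (FreeGroup.map (fun n => 2 * n + 1) (dlt l)) =
        FreeGroup.lift (fun n => f (2 * n + 1)) (dlt l) by
        have : (FreeGroup.lift f).comp (FreeGroup.map (fun n => 2 * n + 1)) =
          FreeGroup.lift (fun n => f (2 * n + 1)) := by ext n; simp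
        exact DFunLike.congr_fun this _]

theorem dlt_law {G : Type*} [Group G] (l : ℕ) (h : derivedSeries G l = ⊥) (f : ℕ → G) :
    FreeGroup.lift f (dlt l) = 1 := by
  have := lift_dlt_mem l f
  rw [h] at this
  exact Subgroup.mem_bot.1 this

theorem exists_eval (l : ℕ) : ∀ g : Equiv.Perm (Fin 5), ∃ f : ℕ → Equiv.Perm (Fin 5),
    FreeGroup.lift f (dlt l) =
      g * ⟨![1, 2, 0, 3, 4], ![2, 0, 1, 3, 4], by decide, by decide⟩ * g⁻¹ := by
  set x : Equiv.Perm (Fin 5) := ⟨![1, 2, 0, 3, 4], ![2, 0, 1, 3, 4], by decide, by decide⟩ with hx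
  set y : Equiv.Perm (Fin 5) := ⟨![3, 4, 2, 0, 1], ![3, 4, 2, 0, 1], by decide, by decide⟩
  set z : Equiv.Perm (Fin 5) := ⟨![0, 3, 2, 1, 4], ![0, 3, 2, 1, 4], by decide, by decide⟩
  have key : x = z * ⁅x, y * x * y⁻¹⁆ * z⁻¹ := by unfold x y z; decide
  induction l with
  | zero => intro g; exact ⟨fun _ => g * x * g⁻¹, by simp [dlt]⟩
  | succ l ih =>
    intro g
    obtain ⟨f1, h1⟩ := ih (g * z)
    obtain ⟨f2, h2⟩ := ih (g * z * y)
    refine ⟨fun n => if n % 2 = 0 then f1 (n / 2) else f2 (n / 2), ?_⟩
    have e1 : ∀ w, FreeGroup.lift (fun n => if n % 2 = 0 then f1 (n / 2) else f2 (n / 2))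
        (FreeGroup.map (fun n => 2 * n) w) = FreeGroup.lift f1 w := by
      intro w
      have : (FreeGroup.lift (fun n => if n % 2 = 0 then f1 (n / 2) else f2 (n / 2))).comp
          (FreeGroup.map (fun n => 2 * n)) = FreeGroup.lift f1 := by ext n; simp
      exact DFunLike.congr_fun this _
    have e2 : ∀ w, FreeGroup.lift (fun n => if n % 2 = 0 then f1 (n / 2) else f2 (n / 2))
        (FreeGroup.map (fun n => 2 * n + 1) w) = FreeGroup.lift f2 w := by
      intro w
      have : (FreeGroup.lift (fun n => if n % 2 = 0 then f1 (n / 2) else f2 (n / 2))).comp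
          (FreeGroup.map (fun n => 2 * n + 1)) = FreeGroup.lift f2 := by
        apply FreeGroup.ext_hom
        intro n
        simp only [MonoidHom.comp_apply, FreeGroup.map.of, FreeGroup.lift_apply_of]
        rw [if_neg (by omega), show (2 * n + 1) / 2 = n by omega]
      exact DFunLike.congr_fun this _
    rw [dlt, map_commutatorElement, e1, e2, h1, h2]
    conv_rhs => rw [key]
    simp only [commutatorElement_def]
    group

theorem dlt_ne (l : ℕ) : dlt l ≠ 1 := by
  intro h
  obtain ⟨f, hf⟩ := exists_eval l 1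
  rw [h, map_one] at hf
  simp at hf
  revert hf
  decide

end Pool.Agent.Helper20.EC
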