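import Pool.Agent.helper20.EC.Norm

/-! [EC-4] A limit group with homogeneous letters.  helper20 -/

namespace Pool.Agent.Helper20.EC

open Filter

/-- A nonprincipal ultrafilter. -/
noncomputable def U : Ultrafilter ℕ := Filter.hyperfilter ℕ

theorem U_ge (n : ℕ) : ∀ᶠ t in (U : Filter ℕ), n ≤ t :=
  Nat.hyperfilter_le_atTop (eventually_ge_atTop n)

/-- Prepend a term to a sequence. -/
def cns (t : ℕ) (x : ℕ → ℕ) : ℕ → ℕ
  | 0 => t
  | n + 1 => x n

/-- Iterated products of the ultrafilter. -/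
noncomputable def Fu : ℕ → Ultrafilter (ℕ → ℕ)
  | 0 => pure (fun _ => 0)
  | n + 1 => U.bind (fun t => (Fu n).map (cns t))

theorem ev_bind {α β : Type*} (f : Ultrafilter α) (g : α → Ultrafilter β) (P : β → Prop) :
    (∀ᶠ x in (f.bind g : Filter β), P x) ↔ ∀ᶠ t in (f : Filter α), ∀ᶠ x in (g t : Filter β), P x :=
  Iff.rfl

theorem ev_map {α β : Type*} (f : Ultrafilter α) (g : α → β) (P : β → Prop) :
    (∀ᶠ x in (f.map g : Filter β), P x) ↔ ∀ᶠ t in (f : Filter α), P (g t) :=
  Iff.rfl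

theorem ev_Fu_succ (n : ℕ) (P : (ℕ → ℕ) → Prop) :
    (∀ᶠ x in (Fu (n + 1) : Filter (ℕ → ℕ)), P x) ↔
      ∀ᶠ t in (U : Filter ℕ), ∀ᶠ x in (Fu n : Filter (ℕ → ℕ)), P (cns t x) :=
  Iff.rfl

/-- The map which omits the value `i`. -/
def ins (i n : ℕ) : ℕ := if n < i then n else n + 1

theorem ev_ins (i : ℕ) : ∀ n, i ≤ n → ∀ P : (ℕ → ℕ) → Prop,
    ((∀ᶠ x in (Fu (n + 1) : Filter (ℕ → ℕ)), P (x ∘ ins i)) ↔
      ∀ᶠ x in (Fu n : Filter (ℕ → ℕ)), P x) := by
  induction i with
  | zero =>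
    intro n _ P
    rw [ev_Fu_succ]
    have h1 : ∀ (t : ℕ) (x : ℕ → ℕ), cns t x ∘ ins 0 = x := by
      intro t x
      funext j
      rfl
    simp only [h1]
    exact eventually_const
  | succ i ih =>
    intro n hn P
    obtain ⟨n, rfl⟩ : ∃ k, n = k + 1 := ⟨n - 1, by omega⟩
    rw [ev_Fu_succ, ev_Fu_succ]
    have h1 : ∀ (t : ℕ) (x : ℕ → ℕ), cns t x ∘ ins (i + 1) = cns t (x ∘ ins i) := by
      intro t x
      funext j
      rcases j with _ | j
      · simp [ins, cns]
      · simp only [Function.comp, ins, cns]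
        by_cases hj : j < i
        · rw [if_pos (by omega), if_pos hj]
        · rw [if_neg (by omega), if_neg hj]
    simp only [h1]
    apply eventually_congr
    exact Eventually.of_forall fun t => ih n (by omega) (fun x => P (cns t x))

/-- The index ultrafilter. -/
noncomputable def Om : Ultrafilter ((ℕ → ℕ) × ℕ) :=
  U.bind fun n => (Fu n).bind fun x => U.map fun D => (x, D)

theorem ev_Om (P : (ℕ → ℕ) × ℕ → Prop) : (∀ᶠ p in (Om : Filter ((ℕ → ℕ) × ℕ)), P p) ↔
    ∀ᶠ n in (U : Filter ℕ), ∀ᶠ x in (Fu n : Filter (ℕ → ℕ)), ∀ᶠ D in (U : Filter ℕ), P (x, D) :=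
  Iff.rfl

attribute [irreducible] Om

/-- Reduction of strictly monotone maps to the maps `ins i`. -/
theorem mono_of_ins (R : List ℕ → Prop) (h : ∀ i l, R (l.map (ins i)) ↔ R l) (l : List ℕ) :
    ∀ (d B : ℕ) (φ : ℕ → ℕ), StrictMono φ → (∀ a ∈ l, a ≤ B) → φ B = B + d →
      (R (l.map φ) ↔ R l) := by
  intro d B
  induction d with
  | zero =>
    intro φ hφ hB hd
    have h1 : l.map φ = l := by
      conv_rhs => rw [← List.map_id l]
      apply List.map_congr_left
      intro a ha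
      have h2 := hB a ha
      have h3 := hφ.add_le_nat (B - a) a
      have h4 := hφ.le_apply (x := a)
      rw [show B - a + a = B by omega, hd] at h3
      simp only [id]
      omega
    rw [h1]
  | succ d ih =>
    intro φ hφ hB hd
    classical
    have hex : ∃ i, φ i ≠ i := ⟨B, by omega⟩
    have hi := Nat.find_spec hex
    have hmin : ∀ j, j < Nat.find hex → φ j = j := fun j hj => by
      by_contra hcon
      exact Nat.find_min hex hj hcon
    have hiB : Nat.find hex ≤ B := Nat.find_min' hex (by omega)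
    set i := Nat.find hex with hidef
    have hii : i < φ i := lt_of_le_of_ne hφ.le_apply hi.symm
    have hge : ∀ j, i ≤ j → i + 1 ≤ φ j := fun j hj => by
      have := hφ.monotone hj
      omega
    have hφ' : StrictMono (fun j => if j < i then φ j else φ j - 1) := by
      intro a b hab
      have h1 := hφ hab
      show (if a < i then φ a else φ a - 1) < (if b < i then φ b else φ b - 1)
      by_cases ha : a < i <;> by_cases hb : b < i
      · rw [if_pos ha, if_pos hb]
        exact h1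
      · rw [if_pos ha, if_neg hb]
        have := hge b (by omega)
        have := hmin a ha
        omega
      · omega
      · rw [if_neg ha, if_neg hb]
        have := hge a (by omega)
        omega
    have hcomp : l.map φ = (l.map (fun j => if j < i then φ j else φ j - 1)).map (ins i) := by
      rw [List.map_map]
      apply List.map_congr_left
      intro a _
      simp only [Function.comp, ins]
      by_cases ha : a < i
      · have := hmin a ha
        rw [if_pos ha, if_pos (by omega)]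
      · have := hge a (by omega)
        rw [if_neg ha, if_neg (by omega)]
        omega
    rw [hcomp, h]
    apply ih _ hφ' hB
    simp only [if_neg (show ¬ B < i by omega)]
    omega

theorem mono_of_ins' (R : List ℕ → Prop) (h : ∀ i l, R (l.map (ins i)) ↔ R l) (φ : ℕ → ℕ)
    (hφ : StrictMono φ) (l : List ℕ) : R (l.map φ) ↔ R l := by
  obtain ⟨B, hB⟩ : ∃ B, ∀ a ∈ l, a ≤ B := ⟨l.sum, fun a ha => List.single_le_sum
    (fun _ _ => Nat.zero_le _) a ha⟩
  have h1 := hφ.le_apply (x := B)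
  exact mono_of_ins R h l (φ B - B) B φ hφ hB (by omega)

theorem run_hom {G H : Type*} [Group G] [Group H] (f : G →* H) (s : ℕ → G) (l : List ℕ)
    (g : G) (b : Bool) :
    run (fun n => f (s n)) l (f g, b) = (f (run s l (g, b)).1, (run s l (g, b)).2) := by
  induction l generalizing g b with
  | nil => rfl
  | cons a l ih =>
    have h1 : stp (fun n => f (s n)) a (f g, b) =
        (f (stp s a (g, b)).1, (stp s a (g, b)).2) := by
      cases b <;> simp [stp]
    rw [run_cons, h1, ih, run_cons]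

theorem run_letters {G : Type*} [Group G] (s : ℕ → G) (φ : ℕ → ℕ) (l : List ℕ)
    (v : G × Bool) : run s (l.map φ) v = run (fun n => s (φ n)) l v := by
  induction l generalizing v with
  | nil => rfl
  | cons a l ih => rw [List.map_cons, run_cons, run_cons, ih]; rfl

section

variable {Γ : ℕ → Type*} [∀ D, Group (Γ D)] (τ : ∀ D, ℕ → Γ D)

/-- Evaluation of free words. -/
def evl (p : (ℕ → ℕ) × ℕ) : FreeGroup ℕ →* Γ p.2 :=
  FreeGroup.lift (fun n => τ p.2 (p.1 n))

@[simp] theorem evl_of (p : (ℕ → ℕ) × ℕ) (n : ℕ) : evl τ p (FreeGroup.of n) = τ p.2 (p.1 n) := by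
  simp [evl]

/-- Words which are generically trivial. -/
def Nn : Subgroup (FreeGroup ℕ) where
  carrier := {a | ∀ᶠ p in (Om : Filter ((ℕ → ℕ) × ℕ)), evl τ p a = 1}
  mul_mem' := by
    intro a b ha hb
    filter_upwards [ha, hb] with p h1 h2
    rw [map_mul, h1, h2, one_mul]
  one_mem' := Eventually.of_forall fun p => map_one _
  inv_mem' := by
    intro a ha
    filter_upwards [ha] with p h1
    rw [map_inv, h1, inv_one]

theorem mem_Nn (a : FreeGroup ℕ) :
    a ∈ Nn τ ↔ ∀ᶠ p in (Om : Filter ((ℕ → ℕ) × ℕ)), evl τ p a = 1 := Iff.rfl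

instance : (Nn τ).Normal where
  conj_mem := by
    intro a ha g
    filter_upwards [ha] with p h1
    rw [map_mul, map_mul, h1, mul_one, map_inv, mul_inv_cancel]

theorem evl_congr (a : FreeGroup ℕ) : ∃ n0, ∀ x y : ℕ → ℕ, (∀ n < n0, x n = y n) →
    ∀ D, evl τ (x, D) a = evl τ (y, D) a := by
  induction a using FreeGroup.induction_on with
  | C1 => exact ⟨0, fun x y _ D => by rw [map_one, map_one]⟩
  | of n => exact ⟨n + 1, fun x y h D => by
      rw [evl_of, evl_of]
      show τ D (x n) = τ D (y n)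
      rw [h n (Nat.lt_succ_self n)]⟩
  | inv_of n _ => exact ⟨n + 1, fun x y h D => by
      rw [map_inv, map_inv, evl_of, evl_of]
      show (τ D (x n))⁻¹ = (τ D (y n))⁻¹
      rw [h n (Nat.lt_succ_self n)]⟩
  | mul a b ha hb =>
    obtain ⟨n1, h1⟩ := ha
    obtain ⟨n2, h2⟩ := hb
    refine ⟨max n1 n2, fun x y h D => ?_⟩
    rw [map_mul, map_mul, h1 x y (fun n hn => h n (lt_max_of_lt_left hn)) D,
      h2 x y (fun n hn => h n (lt_max_of_lt_right hn)) D]

theorem evl_map (a : FreeGroup ℕ) (i : ℕ) (x : ℕ → ℕ) (D : ℕ) :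
    evl τ (x, D) (FreeGroup.map (ins i) a) = evl τ (x ∘ ins i, D) a := by
  have : (evl τ (x, D)).comp (FreeGroup.map (ins i)) = evl τ (x ∘ ins i, D) := by
    ext n
    simp
  exact DFunLike.congr_fun this a

theorem map_ins_mem (a : FreeGroup ℕ) (i : ℕ) : FreeGroup.map (ins i) a ∈ Nn τ ↔ a ∈ Nn τ := by
  rw [mem_Nn, mem_Nn, ev_Om, ev_Om]
  obtain ⟨n0, h0⟩ := evl_congr τ a
  apply eventually_congr
  filter_upwards [U_ge (max n0 i + 1)] with n hn
  obtain ⟨n, rfl⟩ : ∃ k, n = k + 1 := ⟨n - 1, by omega⟩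
  have h1 : i ≤ n := le_trans (le_max_right n0 i) (by omega)
  have h2 : n0 ≤ n := le_trans (le_max_left n0 i) (by omega)
  simp only [evl_map]
  rw [ev_ins i n h1 (fun x => ∀ᶠ D in (U : Filter ℕ), evl τ (x, D) a = 1),
    ← ev_ins n n le_rfl (fun x => ∀ᶠ D in (U : Filter ℕ), evl τ (x, D) a = 1)]
  apply eventually_congr
  apply Eventually.of_forall
  intro x
  apply eventually_congr
  apply Eventually.of_forall
  intro D
  have h3 : evl τ (x ∘ ins n, D) a = evl τ (x, D) a := by
    apply h0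
    intro j hj
    simp only [Function.comp, ins]
    rw [if_pos (by omega)]
  rw [h3]

/-- The letters in the limit group. -/
def sQ (n : ℕ) : FreeGroup ℕ ⧸ Nn τ := (FreeGroup.of n : FreeGroup ℕ)

theorem run_sQ (l : List ℕ) (g : FreeGroup ℕ) (b : Bool) :
    run (sQ τ) l ((g : FreeGroup ℕ ⧸ Nn τ), b) =
      ((((run FreeGroup.of l (g, b)).1 : FreeGroup ℕ) : FreeGroup ℕ ⧸ Nn τ),
        (run (FreeGroup.of : ℕ → FreeGroup ℕ) l (g, b)).2) :=
  run_hom (QuotientGroup.mk' (Nn τ)) FreeGroup.of l g b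

theorem homog_sQ : Homog (sQ τ) := by
  intro φ hφ l b
  have h1 : ∀ l, (run (sQ τ) l (1, b)).1 = 1 ↔ (run FreeGroup.of l (1, b)).1 ∈ Nn τ := by
    intro l
    have := run_sQ τ l 1 b
    rw [QuotientGroup.mk_one] at this
    rw [this, QuotientGroup.eq_one_iff]
  rw [h1, h1]
  apply mono_of_ins' (fun l => (run FreeGroup.of l (1, b)).1 ∈ Nn τ) _ φ hφ
  intro i l
  have h2 : (run FreeGroup.of (l.map (ins i)) (1, b)).1 =
      FreeGroup.map (ins i) (run (FreeGroup.of : ℕ → FreeGroup ℕ) l (1, b)).1 := by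
    rw [run_letters]
    have := run_hom (FreeGroup.map (ins i)) FreeGroup.of l 1 b
    rw [map_one] at this
    simp only [FreeGroup.map.of] at this
    rw [this]
  rw [h2, map_ins_mem]

theorem ev_eq_of_mk {a b : FreeGroup ℕ} (h : (a : FreeGroup ℕ ⧸ Nn τ) = b) :
    ∀ᶠ p in (Om : Filter ((ℕ → ℕ) × ℕ)), evl τ p a = evl τ p b := by
  rw [QuotientGroup.eq] at h
  filter_upwards [h] with p hp
  rw [map_mul, map_inv, inv_mul_eq_one] at hp
  exact hp

theorem ev_ne_of_mk {a b : FreeGroup ℕ} (h : (a : FreeGroup ℕ ⧸ Nn τ) ≠ b) :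
    ∀ᶠ p in (Om : Filter ((ℕ → ℕ) × ℕ)), evl τ p a ≠ evl τ p b := by
  rw [Ne, QuotientGroup.eq, mem_Nn, ← Ultrafilter.eventually_not] at h
  filter_upwards [h] with p hp
  rw [map_mul, map_inv, inv_mul_eq_one] at hp
  exact hp

theorem ev_D (D0 : ℕ) : ∀ᶠ p in (Om : Filter ((ℕ → ℕ) × ℕ)), D0 ≤ p.2 := by
  rw [ev_Om]
  exact Eventually.of_forall fun n => Eventually.of_forall fun x => U_ge D0

/-- Transfer of cycles from the limit group to the groups. -/
theorem transfer {n : ℕ} (h : St (sQ τ) n) : ∃ (D : ℕ) (x : ℕ → ℕ),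
    St (fun i => τ D (x i)) n := by
  classical
  obtain ⟨c, h1, h2, h3⟩ := h
  choose! a ha using h1
  have hg : ∀ i, ∃ g : FreeGroup ℕ, (g : FreeGroup ℕ ⧸ Nn τ) = (c i).1 := fun i =>
    QuotientGroup.mk_surjective _
  choose g hg using hg
  have e1 : ∀ᶠ p in (Om : Filter ((ℕ → ℕ) × ℕ)), ∀ i ∈ Set.Iio n,
      stp (fun j => τ p.2 (p.1 j)) (a i) (evl τ p (g i), (c i).2) =
        (evl τ p (g (i + 1)), (c (i + 1)).2) := by
    rw [Filter.eventually_all_finite (Set.finite_Iio n)]
    intro i hi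
    have h4 : ((stp FreeGroup.of (a i) (g i, (c i).2)).1 : FreeGroup ℕ ⧸ Nn τ) = g (i + 1) := by
      have h5 := run_sQ τ [a i] (g i) (c i).2
      rw [hg i, Prod.mk.eta, run_cons, run_nil, ha i hi] at h5
      rw [hg (i + 1), h5]
      rfl
    filter_upwards [ev_eq_of_mk τ h4] with p hp
    have h5 := run_hom (evl τ p) FreeGroup.of [a i] (g i) (c i).2
    simp only [evl_of, run_cons, run_nil] at h5
    rw [h5, hp]
    have := congrArg Prod.snd (ha i hi)
    rw [stp_snd] at this ⊢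
    rw [this]
  have e2 := ev_eq_of_mk τ (show ((g n : FreeGroup ℕ) : FreeGroup ℕ ⧸ Nn τ) = g 0 by
    rw [hg, hg, h2])
  have e3 : ∀ᶠ p in (Om : Filter ((ℕ → ℕ) × ℕ)), ∀ i ∈ Set.Iio n, ∀ j ∈ Set.Iio n,
      evl τ p (g i) = evl τ p (g j) → i = j := by
    rw [Filter.eventually_all_finite (Set.finite_Iio n)]
    intro i hi
    rw [Filter.eventually_all_finite (Set.finite_Iio n)]
    intro j hj
    by_cases hij : i = j
    · exact Eventually.of_forall fun p _ => hij
    · have : ((g i : FreeGroup ℕ) : FreeGroup ℕ ⧸ Nn τ) ≠ g j := by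
        rw [hg, hg]
        exact fun e => hij (h3 i hi j hj e)
      filter_upwards [ev_ne_of_mk τ this] with p hp e
      exact absurd e hp
  obtain ⟨p, hp1, hp2, hp3⟩ := (e1.and (e2.and e3)).exists
  refine ⟨p.2, p.1, fun i => (evl τ p (g i), (c i).2), ?_, ?_, ?_⟩
  · intro i hi
    exact ⟨a i, hp1 i hi⟩
  · show (evl τ p (g n), (c n).2) = (evl τ p (g 0), (c 0).2)
    rw [hp2, h2]
  · intro i hi j hj h
    exact hp3 i hi j hj h

theorem sQ_ne (hτ : ∀ D, ∀ i < D, ∀ j < D, τ D i = τ D j → i = j) : sQ τ 0 ≠ sQ τ 1 := by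
  intro h
  have h1 := ev_eq_of_mk τ h
  rw [ev_Om] at h1
  have h2 : ∀ᶠ n in (U : Filter ℕ), ∀ᶠ x in (Fu n : Filter (ℕ → ℕ)), ∀ᶠ D in (U : Filter ℕ),
      evl τ (x, D) (FreeGroup.of 0) ≠ evl τ (x, D) (FreeGroup.of 1) := by
    filter_upwards [U_ge 2] with n hn
    obtain ⟨n, rfl⟩ : ∃ k, n = k + 2 := ⟨n - 2, by omega⟩
    rw [ev_Fu_succ]
    apply Eventually.of_forall
    intro t0
    rw [ev_Fu_succ]
    filter_upwards [U_ge (t0 + 1)] with t1 ht1
    apply Eventually.of_forall
    intro x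
    filter_upwards [U_ge (t1 + 1)] with D hD
    rw [evl_of, evl_of]
    intro e
    have := hτ D _ (by show t0 < D; omega) _ (by show t1 < D; omega) e
    have : t0 = t1 := this
    omega
  obtain ⟨n, hn⟩ := (h1.and h2).exists
  obtain ⟨x, hx⟩ := (hn.1.and hn.2).exists
  obtain ⟨D, hD⟩ := (hx.1.and hx.2).exists
  exact hD.2 hD.1

end

end Pool.Agent.Helper20.EC
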